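import Pool.Agent.Results.MP_76188c_nt.CubicTwistRegulators
import Pool.Agent.U687.KT.SelLaw
import Pool.Agent.U695.JT.Prob

/-!
# The `3`-adic regulators of the twists of SEVERAL curves `E_{D_s}` by the same prime

`K` is the field of third roots of unity, `E_D : y² + D y = x³`, and `H¹_f(K, V_3 E_D)` is the group of the
classes in `H¹(K, V_3 E_D)` that are in the image of the Kummer map at all places; this is the group
`H¹_st(G_K, V_3 E_D)` of the problem for `X = E_D`, `i = 2`, `j = 1`, `ℓ = 3` (see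
`CubicTwistRegulators.lean`, whose definitions we use and where the `D` are ordered by the norm).

Here `D_1, …, D_m` are FIXED and arbitrary, pairwise coprime, `D_s` a product of powers `π ^ e`, `e = 1, 2`,
of `n_s` different prime elements `π = 1` modulo `3`; about their curves nothing is assumed. The parameter is
a prime element `q = 1` modulo `3` with `N(q) = 1 + 3 a` modulo `9`, and we consider the `m` regulators of
`D_1 q^{f_1}, …, D_m q^{f_m}`, `f_s = 1, 2`, AT THE SAME TIME, where `N(D_s) (1 + 3 a) ^ {f_s}` is not `1`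
modulo `9`. Let `A_s` be the symmetric matrix of the weighted cubic residue symbols of the primes of `D_s`
over the field with three elements, and `P_s(r)` the share of the diagonal matrices `Y` for which the
corank of `A_s + Y` is `r`.

* The proportion of the `q` for which the Selmer group of `√-3` of `D_s q^{f_s}` has order `3 ^ {r_s + 1}` for
  all `s` tends to `∏_s P_s(r_s)`.
* Both sides of ALL the `m` regulators `E_{D_s q^{f_s}}(K) ⊗ ℚ_3 → H¹_f` are zero for a set of `q` of lower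
  density at least `∏ P_s(0) ≥ (2/3)^{n_1 + ⋯ + n_m} > 0`.
* For a set of `q` of lower density at least `∏ (P_s(0) + P_s(1))`, for ALL `s` the dimension of `H¹_f` is at
  most two, and if `E_{D_s q^{f_s}}(K)` is infinite, then its rank is `2`, the `3`-primary part of `Ш` is
  trivial and the regulator is an isomorphism.
* For a set of `q` of lower density at least `∏ (P_s(0) + ⋯ + P_s(d_s))`, for ALL `s` the rank and the
  dimension of `H¹_f` are at most `2 d_s`.
* SEQUENCES. Let `D_0, D_1, …` be an infinite sequence of pairwise coprime elements as above. The upper density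
  of the `q` for which the frequency of the `i < N` with both sides of the regulator of `D_i q^{f_i}` zero
  is at most the mean of the `P_i(0)` minus `ε` is at most `2 exp (- ε² N / 4)`; the same holds for the
  frequency of the regulators which are isomorphisms if there are infinitely many points (and `H¹_f` of
  dimension at most two) and the mean of the `P_i(0) + P_i(1)`. If the numbers `n_i` are bounded, then for
  `100 %` of the `q` at least `N` of the regulators of the `D_i q^{f_i}` have both sides zero, for every `N`.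

Proof. The facts for one element are those of the named file (helper419 and others). The joint law of the
cubic residue symbols of a variable prime is `Pool.Agent.U687.KT.law` (helper687; his hand-in
`MP_a3f657_nt.PrimeTwistsThreeInfinity` has the joint law of the Selmer groups and no regulators), the law of
large numbers is `Pool.Agent.U695.JT` (helper695). The hand-in `PrimeTwistRegulators` (helper150) treats the
iterated prime twists of ONE curve.
-/

set_option autoImplicit false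

namespace Pool.Agent.Results.MP_76188c_nt.SimultaneousTwists

open NumberField WeierstrassCurve Filter Topology Matrix
open Pool.Agent.Results.MP_76188c_nt.CubicTwistRegulators
open scoped Classical

variable {K : Type} [Field K] [NumberField K]

/-- The prime elements that are `1` modulo `3`, of norm at most `X` and `1 + 3 a` modulo `9`. -/
def Primes (K : Type) [Field K] [NumberField K] (a : ZMod 3) (X : ℕ) : Set (𝓞 K) :=
  {q : 𝓞 K | Prime q ∧ (3 : 𝓞 K) ∣ q - 1 ∧ Algebra.norm ℤ q ≤ X ∧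
    Algebra.norm ℤ q % 9 = 1 + 3 * (a.val : ℤ)}

/-- The proportion of the elements of `Primes K a X` with the property `T`. -/
noncomputable def ratio (a : ZMod 3) (T : 𝓞 K → Prop) (X : ℕ) : ℝ :=
  ({q : 𝓞 K | q ∈ Primes K a X ∧ T q}.ncard : ℝ) / ((Primes K a X).ncard : ℝ)

/-- The lower density of the `q` with the property `T` is at least `c`. -/
def LowerDensityGe (a : ZMod 3) (T : 𝓞 K → Prop) (c : ℝ) : Prop :=
  ∀ δ : ℝ, 0 < δ → ∀ᶠ X : ℕ in atTop, c - δ ≤ ratio a T X

/-- The upper density of the `q` with the property `T` is at most `c`. -/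
def UpperDensityLe (a : ZMod 3) (T : 𝓞 K → Prop) (c : ℝ) : Prop :=
  ∀ δ : ℝ, 0 < δ → ∀ᶠ X : ℕ in atTop, ratio a T X ≤ c + δ

/-- The matrix of the cubic residue symbols, weighted by the exponents. -/
def symbols {n : ℕ} (e : Fin n → ZMod 3) (χ : Fin n → Fin n → ZMod 3) :
    Matrix (Fin n) (Fin n) (ZMod 3) :=
  Matrix.of fun j k => e j * χ j k * e k

/-- The share of the diagonal matrices `Y` for which the rank of `A + Y` is `n - r`. -/
noncomputable def share {n : ℕ} (A : Matrix (Fin n) (Fin n) (ZMod 3)) (r : ℕ) : ℝ :=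
  (Nat.card {y : Fin n → ZMod 3 // (A + diagonal y).rank + r = n} : ℝ) / 3 ^ n

/-- `D` is the product of the powers `π i ^ e i`, `e i = 1, 2`, of the prime elements `π i`, which
are different and `1` modulo `3`, and `(π i / π j)_3 = η ^ χ j i`. -/
def IsFact (η D : 𝓞 K) (n : ℕ) (π : Fin n → 𝓞 K) (e : Fin n → ZMod 3)
    (χ : Fin n → Fin n → ZMod 3) : Prop :=
  (∀ i, Prime (π i) ∧ (3 : 𝓞 K) ∣ π i - 1 ∧ e i ≠ 0) ∧ D = ∏ i, π i ^ (e i).val ∧
  ∀ i j, i ≠ j → ¬ π j ∣ π i ∧
    π j ∣ π i ^ (((Algebra.norm ℤ (π j)).natAbs - 1) / 3) - η ^ (χ j i).val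

/-- `D` has a factorization as above with `n` primes, and `A` is its matrix of weighted symbols. -/
def HasMatrix (η D : 𝓞 K) {n : ℕ} (A : Matrix (Fin n) (Fin n) (ZMod 3)) : Prop :=
  ∃ (π : Fin n → 𝓞 K) (e : Fin n → ZMod 3) (χ : Fin n → Fin n → ZMod 3),
    IsFact η D n π e χ ∧ A = symbols e χ

/-- `f = 1, 2`, and the norm of `D q ^ f` is not `1` modulo `9` for the `q` of `Primes K a X`. -/
def Admissible (a f : ZMod 3) (D : 𝓞 K) : Prop :=
  f ≠ 0 ∧ ¬ (9 : ℤ) ∣ Algebra.norm ℤ D * (1 + 3 * (a.val : ℤ)) ^ f.val - 1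

/-- The element `D q ^ f` of `K`. -/
def twist (D : 𝓞 K) (f : ZMod 3) (q : 𝓞 K) : K := ((D * q ^ f.val : 𝓞 K) : K)

/-- The rank of `E_D(K)` and the dimension of `H¹_f(K, V_3 E_D)` are at most `d`. -/
def Small (d : ℕ) (D : K) : Prop := rank D ≤ d ∧ DimAtMost (curve D) d

/-- The dimension of `H¹_f` is at most two, and if `E_D(K)` is infinite, then its rank is `2`, the
3-primary part of `Ш(E_D/K)` is trivial and the regulator is an isomorphism. -/
def Expected (D : K) : Prop := DimAtMost (curve D) 2 ∧ IsoIfInfinite D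

/-- The frequency of the `i < N` such that `D i q ^ f i` has the property `P`. -/
noncomputable def frequency (P : K → Prop) (D : ℕ → 𝓞 K) (f : ℕ → ZMod 3) (N : ℕ) (q : 𝓞 K) : ℝ :=
  (((Finset.range N).filter fun i => P (twist (D i) (f i) q)).card : ℝ) / N

section proof

open Pool.Agent.U687.KT
open Pool.Agent.Y692.QS (Ei w nr)
open Pool.Agent.Y715.T.Rec (cs)
open Pool.Agent.Y715.T.RecG (Pq)
open Pool.Agent.Y703.CT (Dt)
open Pool.Agent.U695.JT (Pat lln many)

/-- the number of the solutions after the adjunction of `q` -/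
noncomputable def sols {n : ℕ} (e : Fin n → ZMod 3) (χ : Fin n → Fin n → ZMod 3) (f : ZMod 3)
    (x : Fin n → ZMod 3) : ℕ :=
  Nat.card {v : Fin (n + 1) → ZMod 3 // ∀ l : Fin (n + 1), ∑ k : Fin (n + 1),
    (Fin.cons f e : Fin (n + 1) → ZMod 3) k * ex1 χ x l k * (v k - v l) = 0}

theorem key [IsCyclotomicExtension {3} ℚ K] (j : Ei ≃+* 𝓞 K)
    (hj : ∀ z : Ei, Algebra.norm ℤ (j z) = nr z) {D : 𝓞 K} {n : ℕ} {π : Fin n → 𝓞 K}
    {e : Fin n → ZMod 3} {χ : Fin n → Fin n → ZMod 3} (h : RF (j w) D n π e χ) {f a : ZMod 3}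
    (hf : f ≠ 0) (ha : ¬ (9 : ℤ) ∣ Algebra.norm ℤ D * (1 + 3 * (a.val : ℤ)) ^ f.val - 1) {z : Ei}
    (hz : Pq z) (hne : ∀ k, j.symm (π k) ≠ z) (haz : cs z w = a) :
    InClass (D * (j z) ^ f.val) ∧ (SelRoot ((D * (j z) ^ f.val : 𝓞 K) : K)).ncard =
      sols e χ f (fun k => cs z (j.symm (π k))) := by
  have hR := rf_cons j hj h hf hz hne
  obtain ⟨c1, c2⟩ := rf_class j hj hR
  have hq : Algebra.norm ℤ (j z) % 9 = 1 + 3 * (a.val : ℤ) := by
    rw [hj]
    exact (norm_class hz a).2 haz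
  have hC : InClass (D * (j z) ^ f.val) := ⟨c1, c2, norm_nine ha hq⟩
  have hw : (j w) ^ 2 + j w + 1 = 0 := by
    have h1 : (w : Ei) ^ 2 + w + 1 = 0 := by decide
    have h2 := congrArg j h1
    rwa [map_add, map_add, map_pow, map_one, map_zero] at h2
  exact ⟨hC, (Pool.Agent.R419.KL.oneK hC).2 (j w) (n + 1) _ _ _ hw hR⟩

/-- the facts for one element of Selmer rank `r` -/
def Facts (r : ℕ) (D : K) : Prop :=
  rank D ≤ 2 * r ∧ DimAtMost (curve D) (2 * r) ∧ (r = 0 → BothZero D) ∧ (r ≤ 1 → IsoIfInfinite D)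

theorem facts [IsCyclotomicExtension {3} ℚ K] {D : 𝓞 K} (hC : InClass D) {r : ℕ}
    (hr : (SelRoot (D : K)).ncard = 3 ^ (r + 1)) : Facts r (D : K) := by
  obtain ⟨r', b1, b2, b3, b4, b5, b6⟩ := Pool.Agent.R419.MX.one hC
  have b1' : (SelRoot (D : K)).ncard = 3 ^ (r' + 1) := b1
  have b7 : r' = r := by
    rw [b1'] at hr
    have := Nat.pow_right_injective (by norm_num : 2 ≤ 3) hr
    omega
  subst b7
  refine ⟨b3, b4, fun h0 => ?_, fun h => (b6 h).imp id fun h => ⟨h.1, h.2.1,
    ⟨h.2.2.1, h.2.2.2.1, h.2.2.2.2.1⟩, h.2.2.2.2.2⟩⟩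
  refine Pool.Agent.R419.MX.zero_case hC ?_
  have : (SelRoot (D : K)).ncard ≤ 3 ^ 1 := by
    rw [b1', h0]
  exact this

theorem dim_mono {D : K} {d e : ℕ} (h : DimAtMost (curve D) d) (hde : d ≤ e) :
    DimAtMost (curve D) e :=
  fun N x h1 h2 => (h N x h1 h2).trans (Nat.pow_le_pow_right (by norm_num) hde)

theorem primes_fin [IsCyclotomicExtension {3} ℚ K] (a : ZMod 3) (X : ℕ) :
    (Primes K a X).Finite := by
  obtain ⟨⟨j, hj⟩, -⟩ := Pool.Agent.Y455.CTK.jex K
  refine ((Q283.TC.fin_nr X).image j).subset ?_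
  rintro q ⟨-, -, h, -⟩
  obtain ⟨z, rfl⟩ := j.surjective q
  refine ⟨z, ?_, rfl⟩
  rw [hj] at h
  exact h

/-- **the law** -/
theorem law_gen [IsCyclotomicExtension {3} ℚ K] {m : ℕ} {η : 𝓞 K} (hη : η ^ 2 + η + 1 = 0)
    {D : Fin m → 𝓞 K} {n : Fin m → ℕ} {π : (s : Fin m) → Fin (n s) → 𝓞 K}
    {e : (s : Fin m) → Fin (n s) → ZMod 3} {χ : (s : Fin m) → Fin (n s) → Fin (n s) → ZMod 3}
    {f : Fin m → ZMod 3} {a : ZMod 3}
    (hD : ∀ s, IsFact η (D s) (n s) (π s) (e s) (χ s))
    (hco : ∀ s t, s ≠ t → IsCoprime (D s) (D t)) (hA : ∀ s, Admissible a (f s) (D s)) :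
    (∀ s k, e s k ≠ 0) ∧ (∀ s k l, k ≠ l → χ s k l = χ s l k) ∧
    (∀ (X : ℕ) (q : 𝓞 K), q ∈ Primes K a X → ∀ s, ¬ q ∣ D s → InClass (D s * q ^ (f s).val)) ∧
    ∀ (G : Fin m → ℕ → Prop) (T : 𝓞 K → Prop), (∀ q : 𝓞 K, (∀ s, ¬ q ∣ D s) → (T q ↔
        ∀ s, G s (SelRoot (twist (D s) (f s) q)).ncard)) →
      Tendsto (ratio a T) atTop (𝓝 (∏ s, (Nat.card {x : Fin (n s) → ZMod 3 //
        G s (sols (e s) (χ s) (f s) x)} : ℝ) / 3 ^ n s)) := by
  obtain ⟨⟨j, hj⟩, -⟩ := Pool.Agent.Y455.CTK.jex K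
  obtain ⟨j, hj, rfl⟩ := exists_j j hj hη
  have hR : ∀ s, RF (j w) (D s) (n s) (π s) (e s) (χ s) := hD
  have hdt := fun s => (rf_data j hj (hR s)).1
  have hDe := fun s => (rf_data j hj (hR s)).2.1
  -- the primes divide `D`
  have hdv : ∀ s k, j.symm (π s k) ∣ j.symm (D s) := by
    intro s k
    rw [hDe s, RingEquiv.symm_apply_apply]
    unfold Pool.Agent.Y703.CT.pD
    refine dvd_trans (dvd_pow_self _ ?_) (Finset.dvd_prod_of_mem _ (Finset.mem_univ k))
    intro h0
    exact (hdt s).e0 k ((ZMod.val_eq_zero _).1 h0)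
  have hnd : ∀ z s, (¬ j z ∣ D s) → ∀ k, j.symm (π s k) ≠ z := by
    intro z s h k hk
    apply h
    have h1 := map_dvd j (hdv s k)
    rwa [hk, RingEquiv.apply_symm_apply] at h1
  have hnd' : ∀ z, Pq z → ∀ s, (∀ k, j.symm (π s k) ≠ z) → ¬ j z ∣ D s := by
    intro z hz s h h1
    have h2 := map_dvd j.symm h1
    rw [RingEquiv.symm_apply_apply, hDe s, RingEquiv.symm_apply_apply] at h2
    unfold Pool.Agent.Y703.CT.pD at h2
    obtain ⟨k, -, hk⟩ := (hz.prime.dvd_finsetProd_iff _).1 h2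
    exact h k (eq_of_dvd hz ((hdt s).pq k) (hz.prime.dvd_of_dvd_pow hk)).symm
  have hsym : ∀ s k l, k ≠ l → χ s k l = χ s l k := by
    intro s k l hkl
    have hχ := (rf_data j hj (hR s)).2.2
    rw [hχ k l hkl, hχ l k hkl.symm]
    exact (Pool.Agent.Y350.CT.rec _ _ ((hdt s).pq k) ((hdt s).pq l)
      ((hdt s).nd k l hkl)).symm
  refine ⟨fun s => (hdt s).e0, hsym, fun X q hq s hs => ?_, fun G T hT => ?_⟩
  · obtain ⟨h1, h2, -, h4⟩ := hq
    obtain ⟨z, rfl⟩ := j.surjective q
    have hz : Pq z := by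
      have := Pool.Agent.Y696.CTK.pq_symm j h1 h2
      rwa [RingEquiv.symm_apply_apply] at this
    exact (key j hj (hR s) (hA s).1 (hA s).2 hz (hnd z s hs) ((norm_class hz a).1 (by
      rw [← hj]
      exact h4))).1
  · have hinj : Function.Injective
        (fun x : (Σ s, Fin (n s)) => (fun s k => j.symm (π s k)) x.1 x.2) := by
      rintro ⟨s, k⟩ ⟨t, l⟩ h
      have h' : j.symm (π s k) = j.symm (π t l) := h
      have hst : s = t := by
        by_contra hst
        have h2 := ((hdt s).pq k).prime.not_isUnit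
        apply h2
        have h3 := hdv s k
        have h4 := hdv t l
        rw [← h'] at h4
        obtain ⟨u, v, huv⟩ := hco s t hst
        have h5 := congrArg j.symm huv
        rw [map_add, map_mul, map_mul, map_one] at h5
        rw [isUnit_iff_dvd_one, ← h5]
        exact dvd_add (h3.mul_left _) (h4.mul_left _)
      subst hst
      have hkl : k = l := by
        by_contra hkl
        exact (hdt s).nd k l hkl (by rw [h'])
      rw [hkl]
    have hlaw := law (fun s k => j.symm (π s k)) (fun s k => (hdt s).pq k) hinj a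
      (fun s x => G s (sols (e s) (χ s) (f s) x)) (fun z => T (j z)) (by
        intro z hz hne haz
        rw [hT (j z) (fun s => hnd' z hz s (hne s))]
        refine forall_congr' fun s => ?_
        have h1 := (key j hj (hR s) (hA s).1 (hA s).2 hz (hne s) haz).2
        unfold twist
        rw [h1])
    refine hlaw.congr fun X => ?_
    have e0 := sets_eq' j hj a (fun _ => True) X
    simp only [and_true] at e0
    have e1 := sets_eq' j hj a T X
    rw [← e1, ← e0]
    rfl

/-- the share of the vectors for which the number of the solutions is `3 ^ (r + 1)`, `r ∈ R` -/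
theorem pr_set {n : ℕ} {e : Fin n → ZMod 3} {χ : Fin n → Fin n → ZMod 3} {f : ZMod 3}
    (he : ∀ k, e k ≠ 0) (hf : f ≠ 0) (hs : ∀ k l, k ≠ l → χ k l = χ l k) (R : Finset ℕ) :
    (Nat.card {x : Fin n → ZMod 3 // ∃ r ∈ R, sols e χ f x = 3 ^ (r + 1)} : ℝ) / 3 ^ n =
      ∑ r ∈ R, share (symbols e χ) r := by
  have h1 : Nat.card {x : Fin n → ZMod 3 // ∃ r ∈ R, sols e χ f x = 3 ^ (r + 1)} =
      ∑ r ∈ R, Nat.card {x : Fin n → ZMod 3 // sols e χ f x = 3 ^ (r + 1)} := by
    have h2 : ∀ r, Nat.card {x : Fin n → ZMod 3 // sols e χ f x = 3 ^ (r + 1)} =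
        (Finset.univ.filter fun x : Fin n → ZMod 3 => sols e χ f x = 3 ^ (r + 1)).card := by
      intro r
      rw [Nat.card_eq_fintype_card, Fintype.card_subtype]
    have h3 : Nat.card {x : Fin n → ZMod 3 // ∃ r ∈ R, sols e χ f x = 3 ^ (r + 1)} =
        (Finset.univ.filter fun x : Fin n → ZMod 3 => ∃ r ∈ R, sols e χ f x = 3 ^ (r + 1)).card := by
      rw [Nat.card_eq_fintype_card, Fintype.card_subtype]
    have h4 : (Finset.univ.filter fun x : Fin n → ZMod 3 => ∃ r ∈ R, sols e χ f x = 3 ^ (r + 1)) =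
        R.biUnion fun r => Finset.univ.filter fun x : Fin n → ZMod 3 =>
          sols e χ f x = 3 ^ (r + 1) := by
      ext x
      simp only [Finset.mem_filter, Finset.mem_univ, true_and, Finset.mem_biUnion]
    simp only [h2]
    rw [h3, h4]
    refine Finset.card_biUnion fun r _ s _ hrs => ?_
    simp only [Function.onFun]
    rw [Finset.disjoint_left]
    intro x hx hx'
    rw [Finset.mem_filter] at hx hx'
    have h5 := hx.2.symm.trans hx'.2
    have h6 := Nat.pow_right_injective (by norm_num : 2 ≤ 3) h5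
    omega
  rw [h1]
  push_cast
  rw [Finset.sum_div]
  refine Finset.sum_congr rfl fun r _ => ?_
  unfold share
  congr 2
  exact card_sol he hf hs r

theorem pr_not {n : ℕ} (Q : (Fin n → ZMod 3) → Prop) :
    (Nat.card {x : Fin n → ZMod 3 // ¬ Q x} : ℝ) / 3 ^ n =
      1 - (Nat.card {x : Fin n → ZMod 3 // Q x} : ℝ) / 3 ^ n := by
  have h2 : Nat.card {x : Fin n → ZMod 3 // Q x} + Nat.card {x : Fin n → ZMod 3 // ¬ Q x} =
      3 ^ n := by
    rw [← Nat.card_sum, Nat.card_congr (Equiv.sumCompl _), Nat.card_eq_fintype_card,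
      Fintype.card_fun, Fintype.card_fin, ZMod.card]
  have h3 : (Nat.card {x : Fin n → ZMod 3 // Q x} : ℝ) + Nat.card {x : Fin n → ZMod 3 // ¬ Q x} =
      3 ^ n := by exact_mod_cast h2
  rw [eq_sub_iff_add_eq, ← add_div, add_comm, h3]
  exact div_self (by positivity)

theorem ratio_mono [IsCyclotomicExtension {3} ℚ K] {a : ZMod 3} {T T' : 𝓞 K → Prop} {X : ℕ}
    (h : ∀ q ∈ Primes K a X, T q → T' q) : ratio a T X ≤ ratio a T' X := by
  unfold ratio
  refine div_le_div_of_nonneg_right ?_ (Nat.cast_nonneg _)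
  have h1 : {q : 𝓞 K | q ∈ Primes K a X ∧ T q} ⊆ {q : 𝓞 K | q ∈ Primes K a X ∧ T' q} :=
    fun q hq => ⟨hq.1, h q hq.1 hq.2⟩
  have h2 : {q : 𝓞 K | q ∈ Primes K a X ∧ T' q}.Finite :=
    (primes_fin a X).subset fun q hq => hq.1
  exact_mod_cast Set.ncard_le_ncard h1 h2

section family
variable [IsCyclotomicExtension {3} ℚ K] {m : ℕ} {η : 𝓞 K} (hη : η ^ 2 + η + 1 = 0)
  {D : Fin m → 𝓞 K} {n : Fin m → ℕ} {A : (s : Fin m) → Matrix (Fin (n s)) (Fin (n s)) (ZMod 3)}
  {f : Fin m → ZMod 3} {a : ZMod 3} (hD : ∀ s, HasMatrix η (D s) (A s))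
  (hco : ∀ s t, s ≠ t → IsCoprime (D s) (D t)) (hA : ∀ s, Admissible a (f s) (D s))
include hη hD hco hA

/-- the events: the Selmer rank of `D_s q^{f_s}` is in `R s` for `s` in `V` and not in `R s` for the others -/
theorem law_pat (R : Fin m → Finset ℕ) (V : Finset (Fin m)) (T : 𝓞 K → Prop)
    (hT : ∀ q : 𝓞 K, (∀ s, ¬ q ∣ D s) → (T q ↔ ∀ s, (s ∈ V ↔ ∃ r ∈ R s,
      (SelRoot (twist (D s) (f s) q)).ncard = 3 ^ (r + 1)))) :
    (∀ (X : ℕ) (q : 𝓞 K), q ∈ Primes K a X → ∀ s, ¬ q ∣ D s → InClass (D s * q ^ (f s).val)) ∧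
    Tendsto (ratio a T) atTop (𝓝 (∏ s, if s ∈ V then ∑ r ∈ R s, share (A s) r
      else 1 - ∑ r ∈ R s, share (A s) r)) := by
  choose π e χ hF hAe using hD
  obtain ⟨he, hs, hC, hlaw⟩ := law_gen hη hF hco hA
  refine ⟨hC, ?_⟩
  have h1 := hlaw (fun s N => (s ∈ V ↔ ∃ r ∈ R s, N = 3 ^ (r + 1))) T hT
  convert h1 using 2
  refine Finset.prod_congr rfl fun s _ => ?_
  rw [hAe s]
  by_cases hV : s ∈ V
  · rw [if_pos hV]
    simp only [hV, true_iff]
    exact (pr_set (he s) (hA s).1 (hs s) (R s)).symm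
  · rw [if_neg hV]
    simp only [hV, false_iff]
    rw [pr_not, pr_set (he s) (hA s).1 (hs s) (R s)]

theorem law_all (R : Fin m → Finset ℕ) (T : 𝓞 K → Prop)
    (hT : ∀ q : 𝓞 K, (∀ s, ¬ q ∣ D s) → (T q ↔ ∀ s, ∃ r ∈ R s,
      (SelRoot (twist (D s) (f s) q)).ncard = 3 ^ (r + 1))) :
    Tendsto (ratio a T) atTop (𝓝 (∏ s, ∑ r ∈ R s, share (A s) r)) := by
  have h := (law_pat hη hD hco hA R Finset.univ T (fun q hq => by
    rw [hT q hq]
    simp)).2
  simpa using h

/-- lower densities of properties which follow from the facts -/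
theorem lower (R : Fin m → Finset ℕ) (P : Fin m → K → Prop)
    (hP : ∀ s (D' : 𝓞 K), ∀ r ∈ R s, Facts r (D' : K) → P s (D' : K)) :
    LowerDensityGe a (fun q => ∀ s, P s (twist (D s) (f s) q)) (∏ s, ∑ r ∈ R s, share (A s) r) := by
  have hT := law_all hη hD hco hA R (fun q => (∀ s, ¬ q ∣ D s) ∧ ∀ s, ∃ r ∈ R s,
    (SelRoot (twist (D s) (f s) q)).ncard = 3 ^ (r + 1)) (fun q hq =>
      ⟨fun h => h.2, fun h => ⟨hq, h⟩⟩)
  have hC := (law_pat hη hD hco hA R Finset.univ (fun q => ∀ s, (s ∈ Finset.univ ↔ ∃ r ∈ R s,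
      (SelRoot (twist (D s) (f s) q)).ncard = 3 ^ (r + 1))) (fun q _ => Iff.rfl)).1
  intro δ hδ
  filter_upwards [hT.eventually (lt_mem_nhds (sub_lt_self _ hδ))] with X hX
  refine hX.le.trans (ratio_mono fun q hq h s => ?_)
  obtain ⟨r, hr, h2⟩ := h.2 s
  exact hP s _ r hr (facts (hC X q hq s (h.1 s)) h2)

end family

theorem ratio_eq [IsCyclotomicExtension {3} ℚ K] (a : ZMod 3) (T : 𝓞 K → Prop) (X : ℕ) :
    ratio a T X = ((((primes_fin a X).toFinset.filter T).card : ℕ) : ℝ) /
      (((primes_fin (K := K) a X).toFinset.card : ℕ) : ℝ) := by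
  unfold ratio
  congr 2
  · rw [← Set.ncard_coe_finset]
    congr 1
    ext q
    simp
  · rw [← Set.ncard_coe_finset]
    congr 1
    ext q
    simp

theorem ratio_le_one [IsCyclotomicExtension {3} ℚ K] (a : ZMod 3) (T : 𝓞 K → Prop) (X : ℕ) :
    ratio a T X ≤ 1 := by
  rw [ratio_eq]
  refine div_le_one_of_le₀ ?_ (Nat.cast_nonneg _)
  exact_mod_cast Finset.card_filter_le _ _

section seq
variable [IsCyclotomicExtension {3} ℚ K] {η : 𝓞 K} (hη : η ^ 2 + η + 1 = 0)
  {D : ℕ → 𝓞 K} {n : ℕ → ℕ} {A : (i : ℕ) → Matrix (Fin (n i)) (Fin (n i)) (ZMod 3)}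
  {f : ℕ → ZMod 3} {a : ZMod 3} (hD : ∀ i, HasMatrix η (D i) (A i))
  (hco : ∀ i k, i ≠ k → IsCoprime (D i) (D k)) (hA : ∀ i, Admissible a (f i) (D i))

/-- the events for the sequence -/
def Ev (R : Finset ℕ) (D : ℕ → 𝓞 K) (f : ℕ → ZMod 3) (i : ℕ) (q : 𝓞 K) : Prop :=
  ¬ q ∣ D i ∧ ∃ r ∈ R, (SelRoot (twist (D i) (f i) q)).ncard = 3 ^ (r + 1)

include hη hD hco hA

theorem pat (R : Finset ℕ) : Pat (fun X => (primes_fin (K := K) a X).toFinset) (Ev R D f)
    (fun i => ∑ r ∈ R, share (A i) r) := by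
  intro N V
  have h := (law_pat (D := fun s : Fin N => D s) (n := fun s : Fin N => n s)
    (A := fun s : Fin N => A s) (f := fun s : Fin N => f s) hη (fun s => hD s)
    (fun s t hst => hco s t fun h => hst (Fin.ext h)) (fun s => hA s) (fun _ => R) V
    (fun q => ∀ s : Fin N, (s ∈ V ↔ Ev R D f s q)) (fun q hq => by
      refine forall_congr' fun s => ?_
      have : Ev R D f s q ↔ ∃ r ∈ R, (SelRoot (twist (D s) (f s) q)).ncard = 3 ^ (r + 1) :=
        ⟨fun h => h.2, fun h => ⟨hq s, h⟩⟩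
      rw [this])).2
  have hw : Pool.Agent.U695.JT.wt (fun k : Fin N => ∑ r ∈ R, share (A k) r) V =
      ∏ s : Fin N, if s ∈ V then ∑ r ∈ R, share (A s) r else 1 - ∑ r ∈ R, share (A s) r := rfl
  rw [hw]
  refine h.congr fun X => ?_
  rw [ratio_eq]
  congr!

omit hco in
theorem ev_facts {R : Finset ℕ} {i : ℕ} {X : ℕ} {q : 𝓞 K} (hq : q ∈ Primes K a X)
    (h : Ev R D f i q) : ∃ r ∈ R, Facts r (twist (D i) (f i) q) := by
  have hC := (law_pat (D := fun _ : Fin 1 => D i) (n := fun _ : Fin 1 => n i)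
    (A := fun _ : Fin 1 => A i) (f := fun _ : Fin 1 => f i) hη (fun _ => hD i)
    (fun s t hst => absurd (Subsingleton.elim s t) hst) (fun _ => hA i) (fun _ => R) ∅
    (fun q => ∀ s : Fin 1, (s ∈ (∅ : Finset (Fin 1)) ↔ ∃ r ∈ R,
      (SelRoot (twist (D i) (f i) q)).ncard = 3 ^ (r + 1))) (fun q _ => Iff.rfl)).1
  obtain ⟨h1, r, hr, h2⟩ := h
  exact ⟨r, hr, facts (hC X q hq 0 h1) h2⟩

omit hco hA hη hD in
theorem share_nonneg (i r : ℕ) : 0 ≤ share (A i) r := by
  unfold share
  positivity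

omit hco hA hη hD in
theorem sum_mem (R : Finset ℕ) (i : ℕ) :
    0 ≤ ∑ r ∈ R, share (A i) r ∧ ∑ r ∈ R, share (A i) r ≤ 1 := by
  refine ⟨Finset.sum_nonneg fun r _ => share_nonneg i r, ?_⟩
  have h1 : ∑ r ∈ Finset.range (n i + 1), share (A i) r = 1 := sum_shr_one (A i)
  have h2 : ∑ r ∈ R, share (A i) r ≤ ∑ r ∈ Finset.range (n i + 1), share (A i) r := by
    rw [← Finset.sum_filter_add_sum_filter_not R (fun r => r ≤ n i)]
    have h3 : ∑ r ∈ R.filter (fun r => ¬ r ≤ n i), share (A i) r = 0 := by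
      refine Finset.sum_eq_zero fun r hr => ?_
      exact shr_big (A i) (not_le.1 (Finset.mem_filter.1 hr).2)
    rw [h3, add_zero]
    refine Finset.sum_le_sum_of_subset_of_nonneg (fun r hr => ?_) fun r _ _ => share_nonneg i r
    rw [Finset.mem_range]
    have := (Finset.mem_filter.1 hr).2
    omega
  exact h2.trans h1.le

theorem deviation (R : Finset ℕ) (P : K → Prop)
    (hP : ∀ (D' : K), ∀ r ∈ R, Facts r D' → P D') (N : ℕ) (hN : 0 < N) (ε : ℝ) (hε : 0 < ε) :
    UpperDensityLe a (fun q => frequency P D f N q ≤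
      (∑ i ∈ Finset.range N, ∑ r ∈ R, share (A i) r) / N - ε)
      (2 * Real.exp (-(ε ^ 2 * N / 4))) := by
  obtain ⟨l, hl, hT⟩ := lln (fun i => sum_mem R i) (pat hη hD hco hA R) N hN ε hε
  intro δ hδ
  filter_upwards [hT.eventually (gt_mem_nhds (show l < l + δ by linarith))] with X hX
  have h1 : ratio a (fun q => frequency P D f N q ≤
      (∑ i ∈ Finset.range N, ∑ r ∈ R, share (A i) r) / N - ε) X ≤
      ratio a (fun q => ε ≤ |(((Finset.range N).filter fun k => Ev R D f k q).card : ℝ) / N -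
          (∑ k ∈ Finset.range N, ∑ r ∈ R, share (A k) r) / N|) X := by
    refine ratio_mono fun q hq h => ?_
    have h2 : (((Finset.range N).filter fun k => Ev R D f k q).card : ℝ) / N ≤
        frequency P D f N q := by
      unfold frequency
      refine div_le_div_of_nonneg_right ?_ (Nat.cast_nonneg _)
      exact_mod_cast Finset.card_le_card (Finset.monotone_filter_right _ fun i _ hi => by
        obtain ⟨r, hr, h3⟩ := ev_facts hη hD hA hq hi
        exact hP _ r hr h3)
    rw [abs_sub_comm]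
    refine le_trans ?_ (le_abs_self _)
    linarith
  rw [ratio_eq a (fun q => ε ≤ |(((Finset.range N).filter fun k => Ev R D f k q).card : ℝ) / N -
          (∑ k ∈ Finset.range N, ∑ r ∈ R, share (A k) r) / N|)] at h1
  linarith

theorem many_zero {B : ℕ} (hB : ∀ i, n i ≤ B) (N : ℕ) :
    Tendsto (ratio a fun q => ∃ F : Finset ℕ, F.card = N ∧
      ∀ i ∈ F, BothZero (twist (D i) (f i) q)) atTop (𝓝 1) := by
  have hne : ∀ᶠ X in atTop, ((primes_fin (K := K) a X).toFinset).Nonempty := by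
    have h0 := law_all (m := 0) (η := η) (D := fun _ => (1 : 𝓞 K)) (n := fun _ => 0)
      (A := fun _ => 0) (f := fun _ => 0) (a := a) hη (fun s => s.elim0) (fun s => s.elim0)
      (fun s => s.elim0) (fun s => s.elim0) (fun _ => True) (fun q _ => ⟨fun _ s => s.elim0,
        fun _ => trivial⟩)
    rw [Finset.univ_eq_empty, Finset.prod_empty] at h0
    filter_upwards [h0.eventually (lt_mem_nhds (show (0 : ℝ) < 1 by norm_num))] with X hX
    rw [ratio_eq] at hX
    by_contra he
    rw [Finset.not_nonempty_iff_eq_empty] at he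
    rw [he] at hX
    simp at hX
  have hc : (0 : ℝ) < (2 / 3) ^ B := by positivity
  have h := many (fun i => sum_mem (A := A) {0} i) hc (fun i => by
    rw [Finset.sum_singleton]
    refine le_trans ?_ (shr_zero_ge (A i))
    exact pow_le_pow_of_le_one (by norm_num) (by norm_num) (hB i)) (pat hη hD hco hA {0}) hne N
  refine tendsto_of_tendsto_of_tendsto_of_le_of_le h tendsto_const_nhds (fun X => ?_)
    fun X => ratio_le_one a _ X
  have h2 := ratio_eq a (fun q : 𝓞 K => ∃ F : Finset ℕ, F.card = N ∧ ∀ k ∈ F, Ev {0} D f k q) X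
  show _ / _ ≤ _
  rw [← h2]
  refine ratio_mono fun q hq h => ?_
  obtain ⟨F, hF, h3⟩ := h
  refine ⟨F, hF, fun i hi => ?_⟩
  obtain ⟨r, hr, h4⟩ := ev_facts hη hD hA hq (h3 i hi)
  exact h4.2.2.1 (Finset.mem_singleton.1 hr)

end seq

end proof

open Pool.Agent.U687.KT in
/-- **The regulators of the prime twists of several curves at the same time.** -/
theorem result (K : Type) [Field K] [NumberField K] [IsCyclotomicExtension {3} ℚ K] (η : 𝓞 K)
    (a : ZMod 3) (hη : η ^ 2 + η + 1 = 0) :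
    -- finite families
    (∀ (m : ℕ) (D : Fin m → 𝓞 K) (n : Fin m → ℕ)
      (A : (s : Fin m) → Matrix (Fin (n s)) (Fin (n s)) (ZMod 3)) (f : Fin m → ZMod 3),
      (∀ s, HasMatrix η (D s) (A s)) → (∀ s t, s ≠ t → IsCoprime (D s) (D t)) →
      (∀ s, Admissible a (f s) (D s)) →
      (∀ r : Fin m → ℕ, Tendsto (ratio a fun q => ∀ s,
        (SelRoot (twist (D s) (f s) q)).ncard = 3 ^ (r s + 1)) atTop
          (𝓝 (∏ s, share (A s) (r s)))) ∧
      (2 / 3 : ℝ) ^ (∑ s, n s) ≤ ∏ s, share (A s) 0 ∧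
      LowerDensityGe a (fun q => ∀ s, BothZero (twist (D s) (f s) q)) (∏ s, share (A s) 0) ∧
      LowerDensityGe a (fun q => ∀ s, Expected (twist (D s) (f s) q))
        (∏ s, (share (A s) 0 + share (A s) 1)) ∧
      ∀ d : Fin m → ℕ, LowerDensityGe a (fun q => ∀ s, Small (2 * d s) (twist (D s) (f s) q))
        (∏ s, ∑ r ∈ Finset.range (d s + 1), share (A s) r)) ∧
    -- sequences
    ∀ (D : ℕ → 𝓞 K) (n : ℕ → ℕ) (A : (i : ℕ) → Matrix (Fin (n i)) (Fin (n i)) (ZMod 3))
      (f : ℕ → ZMod 3), (∀ i, HasMatrix η (D i) (A i)) →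
      (∀ i k, i ≠ k → IsCoprime (D i) (D k)) → (∀ i, Admissible a (f i) (D i)) →
      (∀ (N : ℕ) (ε : ℝ), 0 < N → 0 < ε →
        UpperDensityLe a (fun q => frequency BothZero D f N q ≤
          (∑ i ∈ Finset.range N, share (A i) 0) / N - ε) (2 * Real.exp (-(ε ^ 2 * N / 4))) ∧
        UpperDensityLe a (fun q => frequency Expected D f N q ≤
          (∑ i ∈ Finset.range N, (share (A i) 0 + share (A i) 1)) / N - ε)
          (2 * Real.exp (-(ε ^ 2 * N / 4)))) ∧
      ∀ B : ℕ, (∀ i, n i ≤ B) → ∀ N : ℕ,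
        Tendsto (ratio a fun q => ∃ F : Finset ℕ, F.card = N ∧
          ∀ i ∈ F, BothZero (twist (D i) (f i) q)) atTop (𝓝 1) := by
  refine ⟨fun m D n A f hD hco hA => ⟨fun r => ?_, ?_, ?_, ?_, fun d => ?_⟩,
    fun D n A f hD hco hA => ⟨fun N ε hN hε => ⟨?_, ?_⟩, fun B hB N => many_zero hη hD hco hA hB N⟩⟩
  · have h := law_all hη hD hco hA (fun s => {r s}) (fun q => ∀ s,
      (SelRoot (twist (D s) (f s) q)).ncard = 3 ^ (r s + 1)) (fun q _ => by simp)
    simpa using h
  · rw [← Finset.prod_pow_eq_pow_sum]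
    exact Finset.prod_le_prod (fun s _ => by positivity) fun s _ => shr_zero_ge (A s)
  · have h := lower hη hD hco hA (fun _ => {0}) (fun _ => BothZero) (fun s D' r hr hF =>
      hF.2.2.1 (Finset.mem_singleton.1 hr))
    simpa using h
  · have h := lower hη hD hco hA (fun _ => Finset.range 2) (fun _ => Expected)
      (fun s D' r hr hF => ⟨dim_mono hF.2.1 (by
        have := Finset.mem_range.1 hr
        omega), hF.2.2.2 (by
        have := Finset.mem_range.1 hr
        omega)⟩)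
    simpa [Finset.sum_range_succ] using h
  · exact lower hη hD hco hA (fun s => Finset.range (d s + 1)) (fun s => Small (2 * d s))
      (fun s D' r hr hF => by
        have := Finset.mem_range.1 hr
        exact ⟨hF.1.trans (by omega), dim_mono hF.2.1 (by omega)⟩)
  · have h := deviation hη hD hco hA {0} BothZero (fun D' r hr hF =>
      hF.2.2.1 (Finset.mem_singleton.1 hr)) N hN ε hε
    simpa using h
  · have h := deviation hη hD hco hA (Finset.range 2) Expected
      (fun D' r hr hF => ⟨dim_mono hF.2.1 (by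
        have := Finset.mem_range.1 hr
        omega), hF.2.2.2 (by
        have := Finset.mem_range.1 hr
        omega)⟩) N hN ε hε
    simpa only [Finset.sum_range_succ, Finset.sum_range_zero, zero_add] using h

end Pool.Agent.Results.MP_76188c_nt.SimultaneousTwists
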