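import Pool.Agent.Results.MP_009fd8_ag.CubeFreeCubicTwists
import Pool.Agent.Results.MP_76188c_nt.SimultaneousTwists

/-!
# The `3`-adic regulator of ONE curve over the cubic fields `K(∛(D_s q^f))`, for several `D_s` at the same time

`K` is the field of third roots of unity and `E : y² + y = x³` is a FIXED curve; the number field `k` of the
problem varies: `k = F`, a cubic extension `F = K(θ)`, `θ³ = D`. The problem asks (for `X = E`, `i = 2`,
`j = 1`, `ℓ = 3`) whether the regulator `E(F) ⊗ ℚ_3 → H¹_st(G_F, V_3 E)` is an isomorphism; the second group is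
`H¹_f(F, V_3 E)` (see `CubicTwistRegulators.lean`). `Zero D` says that both sides are zero for ALL the cubic
extensions `F = K(θ)`, `θ³ = D`.

`D_1, …, D_m` are FIXED and arbitrary, pairwise coprime, `D_s` a product of powers `π ^ e`, `e = 1, 2`, of
`n_s` different prime elements `π = 1` modulo `3`, nothing is assumed on the arithmetic of `E` over `K(∛D_s)`;
the parameter is a prime element `q = 1` modulo `3` with `N(q) = 1 + 3 a` modulo `9`, `f_s = 1, 2`, and
`N(D_s) (1 + 3 a) ^ {f_s}` is not `1` modulo `9`. Let `A_s` be the symmetric matrix of the weighted cubic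
residue symbols of the primes of `D_s`, and `P_s(0)` the share of the diagonal matrices `Y` over the field
with three elements for which `A_s + Y` is invertible. Let `E_D : y² + D y = x³`.

* PATTERNS. For every set `V` of indices the proportion of the `q` such that `E_{D_s q^{f_s}}(K)` is finite and
  `Ш(E_{D_s q^{f_s}} / K)[3^∞] = 0` exactly for the `s` in `V` tends to `∏_{s ∈ V} P_s(0) ∏_{s ∉ V} (1 - P_s(0))`:
  these events are independent.
* For the `s` in `V` the regulator of `E` has both sides zero over all the fields `F = K(∛(D_s q^{f_s}))`.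
  So `Zero (D_s q^{f_s})` holds for ALL `s` for a set of `q` of lower density at least
  `∏ P_s(0) ≥ (2/3)^{n_1 + ⋯ + n_m} > 0`.
* SEQUENCES. For an infinite sequence `D_0, D_1, …` of pairwise coprime elements as above the set of the `q` for
  which the frequency of the `i < N` such that `E_{D_i q^{f_i}}(K)` is finite and `Ш[3^∞] = 0` differs from the
  mean of the `P_i(0)` by at least `ε` has a density, at most `2 exp (- ε² N / 4)`; the upper density of the
  `q` for which the frequency of the `i < N` with `Zero (D_i q^{f_i})` is at most this mean minus `ε` has the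
  same bound. If the `n_i` are bounded, then for `100 %` of the `q` at least `N` of the `D_i q^{f_i}` have the
  property `Zero`, for every `N`: one prime `q` controls `E` over the fields `K(∛(D_i q^{f_i}))`.

Proof. The criterion for `E_D` and the transfer to `F` are those of `MP_009fd8_ag.CubeFreeCubicTwists` (starting
file, helper419 and others), the joint law of the symbols is `Pool.Agent.U687.KT.law` (helper687) in the form
of `MP_76188c_nt.SimultaneousTwists` (the regulators of the CURVES `E_{D_s q^f}` over the fixed field `K`), the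
law of large numbers is `Pool.Agent.U695.JT` (helper695).
-/

set_option autoImplicit false

namespace Pool.Agent.Results.MP_76188c_nt.FieldsOfPrimeTwists

open NumberField WeierstrassCurve Filter Topology Matrix
open Pool.Agent.Results.MP_009fd8_ag.CubeFreeCubicTwists (curve BothZero InClass FiniteAndTrivial
  IsFactorization IsConnected)
open Pool.Agent.Results.MP_76188c_nt.SimultaneousTwists (Primes ratio LowerDensityGe UpperDensityLe
  symbols share IsFact HasMatrix Admissible)
open scoped Classical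

variable {K : Type} [Field K] [NumberField K]

/-- For `E : y² + y = x³` and ALL the cubic extensions `F = K(θ)`, `θ³ = D`, both sides of the regulator
`E(F) ⊗ ℚ_3 → H¹_f(F, V_3 E)` are zero. -/
def Zero (D : 𝓞 K) : Prop :=
  ∀ (F : Type) [Field F] [NumberField F] [Algebra K F] (θ : F),
    Module.finrank K F = 3 → θ ^ 3 = algebraMap K F D → BothZero (curve (1 : F))

/-- There is a cubic extension `F = K(θ)`, `θ³ = D`. -/
def HasField (D : 𝓞 K) : Prop :=
  ∃ (F : Type) (_ : Field F) (_ : NumberField F) (_ : Algebra K F) (θ : F),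
    Module.finrank K F = 3 ∧ θ ^ 3 = algebraMap K F D

/-- The frequency of the `i < N` such that `D i q ^ f i` has the property `P`. -/
noncomputable def frequency (P : 𝓞 K → Prop) (D : ℕ → 𝓞 K) (f : ℕ → ZMod 3) (N : ℕ) (q : 𝓞 K) : ℝ :=
  (((Finset.range N).filter fun i => P (D i * q ^ (f i).val)).card : ℝ) / N

section proof

open Pool.Agent.U687.KT
open Pool.Agent.Y692.QS (Ei w nr)
open Pool.Agent.Y715.T.Rec (cs)
open Pool.Agent.Y715.T.RecG (Pq)
open Pool.Agent.Y703.CT (Dt)
open Pool.Agent.U695.JT (Pat lln many)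
open Pool.Agent.Results.MP_76188c_nt.SimultaneousTwists (sols pr_set pr_not primes_fin ratio_eq
  ratio_mono ratio_le_one)

/-- connectedness and the number of the solutions -/
theorem conn_iff {n : ℕ} (e : Fin (n + 1) → ZMod 3) (χ : Fin (n + 1) → Fin (n + 1) → ZMod 3) :
    IsConnected e χ ↔ Nat.card {v : Fin (n + 1) → ZMod 3 //
      ∀ j, ∑ i, e i * χ j i * (v i - v j) = 0} = 3 := by
  set S := {v : Fin (n + 1) → ZMod 3 // ∀ j, ∑ i, e i * χ j i * (v i - v j) = 0} with hS
  let φ : ZMod 3 → S := fun c => ⟨fun _ => c, fun j => by simp⟩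
  have hφ : Function.Injective φ := fun c d h => congrFun (congrArg Subtype.val h) 0
  constructor
  · intro h
    have hs : Function.Surjective φ := fun v =>
      ⟨v.1 0, Subtype.ext (funext fun i => h v.1 v.2 0 i)⟩
    rw [← Nat.card_eq_of_bijective φ ⟨hφ, hs⟩, Nat.card_zmod]
  · intro h v hv i j
    have hb : Function.Bijective φ := by
      rw [Fintype.bijective_iff_injective_and_card]
      refine ⟨hφ, ?_⟩
      rw [← Nat.card_eq_fintype_card, ← Nat.card_eq_fintype_card, h, Nat.card_zmod]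
    obtain ⟨c, hc⟩ := hb.2 ⟨v, hv⟩
    have h1 : (fun _ => c) = v := congrArg Subtype.val hc
    rw [← h1]

theorem key [IsCyclotomicExtension {3} ℚ K] (j : Ei ≃+* 𝓞 K)
    (hj : ∀ z : Ei, Algebra.norm ℤ (j z) = nr z) {D : 𝓞 K} {n : ℕ} {π : Fin n → 𝓞 K}
    {e : Fin n → ZMod 3} {χ : Fin n → Fin n → ZMod 3} (h : RF (j w) D n π e χ) {f a : ZMod 3}
    (hf : f ≠ 0) (ha : ¬ (9 : ℤ) ∣ Algebra.norm ℤ D * (1 + 3 * (a.val : ℤ)) ^ f.val - 1) {z : Ei}
    (hz : Pq z) (hne : ∀ k, j.symm (π k) ≠ z) (haz : cs z w = a) :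
    InClass (D * (j z) ^ f.val) ∧ (FiniteAndTrivial (D * (j z) ^ f.val) ↔
      sols e χ f (fun k => cs z (j.symm (π k))) = 3 ^ (0 + 1)) := by
  have hR := rf_cons j hj h hf hz hne
  obtain ⟨c1, c2⟩ := rf_class j hj hR
  have hq : Algebra.norm ℤ (j z) % 9 = 1 + 3 * (a.val : ℤ) := by
    rw [hj]
    exact (norm_class hz a).2 haz
  have hC : InClass (D * (j z) ^ f.val) := ⟨c1, c2, norm_nine ha hq⟩
  have hw : (j w) ^ 2 + j w + 1 = 0 := by
    have h1 : (w : Ei) ^ 2 + w + 1 = 0 := by decide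
    have h2 := congrArg j h1
    rwa [map_add, map_add, map_pow, map_one, map_zero] at h2
  refine ⟨hC, ?_⟩
  have h3 := ((Pool.Agent.Results.MP_009fd8_ag.CubeFreeCubicTwists.result K).2.1 _ hC).1.2
    (j w) (n + 1) _ _ _ hw hR
  rw [h3, conn_iff]
  exact Iff.rfl

/-- **the law** -/
theorem law_gen [IsCyclotomicExtension {3} ℚ K] {m : ℕ} {η : 𝓞 K} (hη : η ^ 2 + η + 1 = 0)
    {D : Fin m → 𝓞 K} {n : Fin m → ℕ} {π : (s : Fin m) → Fin (n s) → 𝓞 K}
    {e : (s : Fin m) → Fin (n s) → ZMod 3} {χ : (s : Fin m) → Fin (n s) → Fin (n s) → ZMod 3}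
    {f : Fin m → ZMod 3} {a : ZMod 3}
    (hD : ∀ s, IsFact η (D s) (n s) (π s) (e s) (χ s))
    (hco : ∀ s t, s ≠ t → IsCoprime (D s) (D t)) (hA : ∀ s, Admissible a (f s) (D s)) :
    (∀ s k, e s k ≠ 0) ∧ (∀ s k l, k ≠ l → χ s k l = χ s l k) ∧
    (∀ (X : ℕ) (q : 𝓞 K), q ∈ Primes K a X → ∀ s, ¬ q ∣ D s → InClass (D s * q ^ (f s).val)) ∧
    ∀ (G : Fin m → Prop → Prop) (T : 𝓞 K → Prop), (∀ q : 𝓞 K, (∀ s, ¬ q ∣ D s) → (T q ↔
        ∀ s, G s (FiniteAndTrivial (D s * q ^ (f s).val)))) →
      Tendsto (ratio a T) atTop (𝓝 (∏ s, (Nat.card {x : Fin (n s) → ZMod 3 //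
        G s (sols (e s) (χ s) (f s) x = 3 ^ (0 + 1))} : ℝ) / 3 ^ n s)) := by
  obtain ⟨⟨j, hj⟩, -⟩ := Pool.Agent.Y455.CTK.jex K
  obtain ⟨j, hj, rfl⟩ := exists_j j hj hη
  have hR : ∀ s, RF (j w) (D s) (n s) (π s) (e s) (χ s) := hD
  have hdt := fun s => (rf_data j hj (hR s)).1
  have hDe := fun s => (rf_data j hj (hR s)).2.1
  have hdv : ∀ s k, j.symm (π s k) ∣ j.symm (D s) := by
    intro s k
    rw [hDe s, RingEquiv.symm_apply_apply]
    unfold Pool.Agent.Y703.CT.pD
    refine dvd_trans (dvd_pow_self _ ?_) (Finset.dvd_prod_of_mem _ (Finset.mem_univ k))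
    intro h0
    exact (hdt s).e0 k ((ZMod.val_eq_zero _).1 h0)
  have hnd : ∀ z s, (¬ j z ∣ D s) → ∀ k, j.symm (π s k) ≠ z := by
    intro z s h k hk
    apply h
    have h1 := map_dvd j (hdv s k)
    rwa [hk, RingEquiv.apply_symm_apply] at h1
  have hnd' : ∀ z, Pq z → ∀ s, (∀ k, j.symm (π s k) ≠ z) → ¬ j z ∣ D s := by
    intro z hz s h h1
    have h2 := map_dvd j.symm h1
    rw [RingEquiv.symm_apply_apply, hDe s, RingEquiv.symm_apply_apply] at h2
    unfold Pool.Agent.Y703.CT.pD at h2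
    obtain ⟨k, -, hk⟩ := (hz.prime.dvd_finsetProd_iff _).1 h2
    exact h k (eq_of_dvd hz ((hdt s).pq k) (hz.prime.dvd_of_dvd_pow hk)).symm
  have hsym : ∀ s k l, k ≠ l → χ s k l = χ s l k := by
    intro s k l hkl
    have hχ := (rf_data j hj (hR s)).2.2
    rw [hχ k l hkl, hχ l k hkl.symm]
    exact (Pool.Agent.Y350.CT.rec _ _ ((hdt s).pq k) ((hdt s).pq l)
      ((hdt s).nd k l hkl)).symm
  refine ⟨fun s => (hdt s).e0, hsym, fun X q hq s hs => ?_, fun G T hT => ?_⟩
  · obtain ⟨h1, h2, -, h4⟩ := hq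
    obtain ⟨z, rfl⟩ := j.surjective q
    have hz : Pq z := by
      have := Pool.Agent.Y696.CTK.pq_symm j h1 h2
      rwa [RingEquiv.symm_apply_apply] at this
    exact (key j hj (hR s) (hA s).1 (hA s).2 hz (hnd z s hs) ((norm_class hz a).1 (by
      rw [← hj]
      exact h4))).1
  · have hinj : Function.Injective
        (fun x : (Σ s, Fin (n s)) => (fun s k => j.symm (π s k)) x.1 x.2) := by
      rintro ⟨s, k⟩ ⟨t, l⟩ h
      have h' : j.symm (π s k) = j.symm (π t l) := h
      have hst : s = t := by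
        by_contra hst
        have h2 := ((hdt s).pq k).prime.not_isUnit
        apply h2
        have h3 := hdv s k
        have h4 := hdv t l
        rw [← h'] at h4
        obtain ⟨u, v, huv⟩ := hco s t hst
        have h5 := congrArg j.symm huv
        rw [map_add, map_mul, map_mul, map_one] at h5
        rw [isUnit_iff_dvd_one, ← h5]
        exact dvd_add (h3.mul_left _) (h4.mul_left _)
      subst hst
      have hkl : k = l := by
        by_contra hkl
        exact (hdt s).nd k l hkl (by rw [h'])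
      rw [hkl]
    have hlaw := law (fun s k => j.symm (π s k)) (fun s k => (hdt s).pq k) hinj a
      (fun s x => G s (sols (e s) (χ s) (f s) x = 3 ^ (0 + 1))) (fun z => T (j z)) (by
        intro z hz hne haz
        rw [hT (j z) (fun s => hnd' z hz s (hne s))]
        refine forall_congr' fun s => ?_
        have h1 := (key j hj (hR s) (hA s).1 (hA s).2 hz (hne s) haz).2
        rw [propext h1])
    refine hlaw.congr fun X => ?_
    have e0 := sets_eq' j hj a (fun _ => True) X
    simp only [and_true] at e0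
    have e1 := sets_eq' j hj a T X
    rw [← e1, ← e0]
    rfl

/-- the facts of the starting file -/
theorem facts [IsCyclotomicExtension {3} ℚ K] {D : 𝓞 K} (hC : InClass D) :
    HasField D ∧ (FiniteAndTrivial D → Zero D) := by
  obtain ⟨-, h2, h3⟩ := (Pool.Agent.Results.MP_009fd8_ag.CubeFreeCubicTwists.result K).2.1 _ hC
  exact ⟨h2, fun h => (h3 h).2⟩

section family
variable [IsCyclotomicExtension {3} ℚ K] {m : ℕ} {η : 𝓞 K} (hη : η ^ 2 + η + 1 = 0)
  {D : Fin m → 𝓞 K} {n : Fin m → ℕ} {A : (s : Fin m) → Matrix (Fin (n s)) (Fin (n s)) (ZMod 3)}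
  {f : Fin m → ZMod 3} {a : ZMod 3} (hD : ∀ s, HasMatrix η (D s) (A s))
  (hco : ∀ s t, s ≠ t → IsCoprime (D s) (D t)) (hA : ∀ s, Admissible a (f s) (D s))
include hη hD hco hA

theorem law_pat (V : Finset (Fin m)) (T : 𝓞 K → Prop)
    (hT : ∀ q : 𝓞 K, (∀ s, ¬ q ∣ D s) → (T q ↔ ∀ s, (s ∈ V ↔
      FiniteAndTrivial (D s * q ^ (f s).val)))) :
    (∀ (X : ℕ) (q : 𝓞 K), q ∈ Primes K a X → ∀ s, ¬ q ∣ D s → InClass (D s * q ^ (f s).val)) ∧
    Tendsto (ratio a T) atTop (𝓝 (∏ s, if s ∈ V then share (A s) 0 else 1 - share (A s) 0)) := by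
  choose π e χ hF hAe using hD
  obtain ⟨he, hs, hC, hlaw⟩ := law_gen hη hF hco hA
  refine ⟨hC, ?_⟩
  have h1 := hlaw (fun s N => (s ∈ V ↔ N)) T hT
  convert h1 using 2
  refine Finset.prod_congr rfl fun s _ => ?_
  rw [hAe s]
  have h2 := pr_set (he s) (hA s).1 (hs s) {0}
  simp only [Finset.mem_singleton, exists_eq_left, Finset.sum_singleton] at h2
  by_cases hV : s ∈ V
  · rw [if_pos hV]
    simp only [hV, true_iff]
    exact h2.symm
  · rw [if_neg hV]
    simp only [hV, false_iff]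
    rw [pr_not, h2]

end family

section seq
variable [IsCyclotomicExtension {3} ℚ K] {η : 𝓞 K} (hη : η ^ 2 + η + 1 = 0)
  {D : ℕ → 𝓞 K} {n : ℕ → ℕ} {A : (i : ℕ) → Matrix (Fin (n i)) (Fin (n i)) (ZMod 3)}
  {f : ℕ → ZMod 3} {a : ZMod 3} (hD : ∀ i, HasMatrix η (D i) (A i))
  (hco : ∀ i k, i ≠ k → IsCoprime (D i) (D k)) (hA : ∀ i, Admissible a (f i) (D i))

/-- the events for the sequence -/
def Ev (D : ℕ → 𝓞 K) (f : ℕ → ZMod 3) (i : ℕ) (q : 𝓞 K) : Prop :=
  ¬ q ∣ D i ∧ FiniteAndTrivial (D i * q ^ (f i).val)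

omit [NumberField K] in
theorem share_mem {n : ℕ} (A : Matrix (Fin n) (Fin n) (ZMod 3)) : 0 ≤ share A 0 ∧ share A 0 ≤ 1 := by
  have h0 : ∀ r, 0 ≤ share A r := fun r => by
    unfold share
    positivity
  refine ⟨h0 0, ?_⟩
  have h1 : ∑ r ∈ Finset.range (n + 1), share A r = 1 := sum_shr_one A
  rw [← h1]
  exact Finset.single_le_sum (fun r _ => h0 r) (Finset.mem_range.2 (Nat.succ_pos n))

include hη hD hco hA

theorem pat : Pat (fun X => (primes_fin (K := K) a X).toFinset) (Ev D f)
    (fun i => share (A i) 0) := by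
  intro N V
  have h := (law_pat (D := fun s : Fin N => D s) (n := fun s : Fin N => n s)
    (A := fun s : Fin N => A s) (f := fun s : Fin N => f s) hη (fun s => hD s)
    (fun s t hst => hco s t fun h => hst (Fin.ext h)) (fun s => hA s) V
    (fun q => ∀ s : Fin N, (s ∈ V ↔ Ev D f s q)) (fun q hq => by
      refine forall_congr' fun s => ?_
      have : Ev D f s q ↔ FiniteAndTrivial (D s * q ^ (f s).val) :=
        ⟨fun h => h.2, fun h => ⟨hq s, h⟩⟩
      rw [this])).2
  have hw : Pool.Agent.U695.JT.wt (fun k : Fin N => share (A k) 0) V =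
      ∏ s : Fin N, if s ∈ V then share (A s) 0 else 1 - share (A s) 0 := rfl
  rw [hw]
  refine h.congr fun X => ?_
  rw [ratio_eq]
  congr!

/-- the events without the condition of divisibility -/
theorem pat' : Pat (fun X => (primes_fin (K := K) a X).toFinset)
    (fun i q => FiniteAndTrivial (D i * q ^ (f i).val)) (fun i => share (A i) 0) := by
  intro N V
  have h := (law_pat (D := fun s : Fin N => D s) (n := fun s : Fin N => n s)
    (A := fun s : Fin N => A s) (f := fun s : Fin N => f s) hη (fun s => hD s)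
    (fun s t hst => hco s t fun h => hst (Fin.ext h)) (fun s => hA s) V
    (fun q => ∀ s : Fin N, (s ∈ V ↔ FiniteAndTrivial (D s * q ^ (f s).val))) (fun q _ =>
      Iff.rfl)).2
  have hw : Pool.Agent.U695.JT.wt (fun k : Fin N => share (A k) 0) V =
      ∏ s : Fin N, if s ∈ V then share (A s) 0 else 1 - share (A s) 0 := rfl
  rw [hw]
  refine h.congr fun X => ?_
  rw [ratio_eq]
  congr!

omit hco in
theorem ev_zero {i : ℕ} {X : ℕ} {q : 𝓞 K} (hq : q ∈ Primes K a X) (h : Ev D f i q) :
    Zero (D i * q ^ (f i).val) := by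
  have hC := (law_pat (D := fun _ : Fin 1 => D i) (n := fun _ : Fin 1 => n i)
    (A := fun _ : Fin 1 => A i) (f := fun _ : Fin 1 => f i) hη (fun _ => hD i)
    (fun s t hst => absurd (Subsingleton.elim s t) hst) (fun _ => hA i) ∅
    (fun q => ∀ s : Fin 1, (s ∈ (∅ : Finset (Fin 1)) ↔ FiniteAndTrivial (D i * q ^ (f i).val)))
    (fun q _ => Iff.rfl)).1
  exact (facts (hC X q hq 0 h.1)).2 h.2

theorem exact_dev (N : ℕ) (hN : 0 < N) (ε : ℝ) (hε : 0 < ε) :
    ∃ l : ℝ, l ≤ 2 * Real.exp (-(ε ^ 2 * N / 4)) ∧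
      Tendsto (ratio a fun q => ε ≤ |frequency FiniteAndTrivial D f N q -
        (∑ i ∈ Finset.range N, share (A i) 0) / N|) atTop (𝓝 l) := by
  obtain ⟨l, hl, hT⟩ := lln (fun i => share_mem (A i)) (pat' hη hD hco hA) N hN ε hε
  refine ⟨l, hl, hT.congr fun X => ?_⟩
  rw [ratio_eq]
  unfold frequency
  congr!

theorem deviation (N : ℕ) (hN : 0 < N) (ε : ℝ) (hε : 0 < ε) :
    UpperDensityLe a (fun q => frequency Zero D f N q ≤
      (∑ i ∈ Finset.range N, share (A i) 0) / N - ε) (2 * Real.exp (-(ε ^ 2 * N / 4))) := by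
  obtain ⟨l, hl, hT⟩ := lln (fun i => share_mem (A i)) (pat hη hD hco hA) N hN ε hε
  intro δ hδ
  filter_upwards [hT.eventually (gt_mem_nhds (show l < l + δ by linarith))] with X hX
  have h1 : ratio a (fun q => frequency Zero D f N q ≤
      (∑ i ∈ Finset.range N, share (A i) 0) / N - ε) X ≤
      ratio a (fun q => ε ≤ |(((Finset.range N).filter fun k => Ev D f k q).card : ℝ) / N -
          (∑ k ∈ Finset.range N, share (A k) 0) / N|) X := by
    refine ratio_mono fun q hq h => ?_
    have h2 : (((Finset.range N).filter fun k => Ev D f k q).card : ℝ) / N ≤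
        frequency Zero D f N q := by
      unfold frequency
      refine div_le_div_of_nonneg_right ?_ (Nat.cast_nonneg _)
      exact_mod_cast Finset.card_le_card (Finset.monotone_filter_right _ fun i _ hi =>
        ev_zero hη hD hA hq hi)
    rw [abs_sub_comm]
    refine le_trans ?_ (le_abs_self _)
    linarith
  rw [ratio_eq a (fun q => ε ≤ |(((Finset.range N).filter fun k => Ev D f k q).card : ℝ) / N -
          (∑ k ∈ Finset.range N, share (A k) 0) / N|)] at h1
  linarith

theorem many_zero {B : ℕ} (hB : ∀ i, n i ≤ B) (N : ℕ) :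
    Tendsto (ratio a fun q => ∃ S : Finset ℕ, S.card = N ∧
      ∀ i ∈ S, Zero (D i * q ^ (f i).val)) atTop (𝓝 1) := by
  have hne : ∀ᶠ X in atTop, ((primes_fin (K := K) a X).toFinset).Nonempty := by
    have h0 := (law_pat (m := 0) (η := η) (D := fun _ => (1 : 𝓞 K)) (n := fun _ => 0)
      (A := fun _ => 0) (f := fun _ => 0) (a := a) hη (fun s => s.elim0) (fun s => s.elim0)
      (fun s => s.elim0) ∅ (fun _ => True) (fun q _ => ⟨fun _ s => s.elim0,
        fun _ => trivial⟩)).2
    rw [Finset.univ_eq_empty, Finset.prod_empty] at h0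
    filter_upwards [h0.eventually (lt_mem_nhds (show (0 : ℝ) < 1 by norm_num))] with X hX
    rw [ratio_eq] at hX
    by_contra he
    rw [Finset.not_nonempty_iff_eq_empty] at he
    rw [he] at hX
    simp at hX
  have hc : (0 : ℝ) < (2 / 3) ^ B := by positivity
  have h := many (fun i => share_mem (A i)) hc (fun i => by
    refine le_trans ?_ (shr_zero_ge (A i))
    exact pow_le_pow_of_le_one (by norm_num) (by norm_num) (hB i)) (pat hη hD hco hA) hne N
  refine tendsto_of_tendsto_of_tendsto_of_le_of_le h tendsto_const_nhds (fun X => ?_)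
    fun X => ratio_le_one a _ X
  have h2 := ratio_eq a (fun q : 𝓞 K => ∃ S : Finset ℕ, S.card = N ∧ ∀ k ∈ S, Ev D f k q) X
  show _ / _ ≤ _
  rw [← h2]
  refine ratio_mono fun q hq h => ?_
  obtain ⟨S, hS, h3⟩ := h
  exact ⟨S, hS, fun i hi => ev_zero hη hD hA hq (h3 i hi)⟩

end seq

end proof

open Pool.Agent.U687.KT in
/-- **One curve over the cubic fields of the prime twists of several elements.** -/
theorem result (K : Type) [Field K] [NumberField K] [IsCyclotomicExtension {3} ℚ K] (η : 𝓞 K)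
    (a : ZMod 3) (hη : η ^ 2 + η + 1 = 0) :
    -- finite families
    (∀ (m : ℕ) (D : Fin m → 𝓞 K) (n : Fin m → ℕ)
      (A : (s : Fin m) → Matrix (Fin (n s)) (Fin (n s)) (ZMod 3)) (f : Fin m → ZMod 3),
      (∀ s, HasMatrix η (D s) (A s)) → (∀ s t, s ≠ t → IsCoprime (D s) (D t)) →
      (∀ s, Admissible a (f s) (D s)) →
      (∀ V : Finset (Fin m), Tendsto (ratio a fun q => ∀ s,
        (s ∈ V ↔ FiniteAndTrivial (D s * q ^ (f s).val))) atTop
          (𝓝 (∏ s, if s ∈ V then share (A s) 0 else 1 - share (A s) 0))) ∧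
      (∀ (X : ℕ) (q : 𝓞 K), q ∈ Primes K a X → ∀ s, ¬ q ∣ D s →
        HasField (D s * q ^ (f s).val) ∧
        (FiniteAndTrivial (D s * q ^ (f s).val) → Zero (D s * q ^ (f s).val))) ∧
      LowerDensityGe a (fun q => ∀ s, HasField (D s * q ^ (f s).val) ∧
        Zero (D s * q ^ (f s).val)) (∏ s, share (A s) 0) ∧
      (2 / 3 : ℝ) ^ (∑ s, n s) ≤ ∏ s, share (A s) 0) ∧
    -- sequences
    ∀ (D : ℕ → 𝓞 K) (n : ℕ → ℕ) (A : (i : ℕ) → Matrix (Fin (n i)) (Fin (n i)) (ZMod 3))
      (f : ℕ → ZMod 3), (∀ i, HasMatrix η (D i) (A i)) →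
      (∀ i k, i ≠ k → IsCoprime (D i) (D k)) → (∀ i, Admissible a (f i) (D i)) →
      (∀ (N : ℕ) (ε : ℝ), 0 < N → 0 < ε →
        (∃ l : ℝ, l ≤ 2 * Real.exp (-(ε ^ 2 * N / 4)) ∧
          Tendsto (ratio a fun q => ε ≤ |frequency FiniteAndTrivial D f N q -
            (∑ i ∈ Finset.range N, share (A i) 0) / N|) atTop (𝓝 l)) ∧
        UpperDensityLe a (fun q => frequency Zero D f N q ≤
          (∑ i ∈ Finset.range N, share (A i) 0) / N - ε) (2 * Real.exp (-(ε ^ 2 * N / 4)))) ∧
      ∀ B : ℕ, (∀ i, n i ≤ B) → ∀ N : ℕ,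
        Tendsto (ratio a fun q => ∃ S : Finset ℕ, S.card = N ∧
          ∀ i ∈ S, Zero (D i * q ^ (f i).val)) atTop (𝓝 1) := by
  refine ⟨fun m D n A f hD hco hA => ?_, fun D n A f hD hco hA => ⟨fun N ε hN hε =>
    ⟨exact_dev hη hD hco hA N hN ε hε, deviation hη hD hco hA N hN ε hε⟩,
      fun B hB N => many_zero hη hD hco hA hB N⟩⟩
  have hC := (law_pat hη hD hco hA ∅ (fun q => ∀ s, (s ∈ (∅ : Finset (Fin m)) ↔
    FiniteAndTrivial (D s * q ^ (f s).val))) (fun q _ => Iff.rfl)).1
  refine ⟨fun V => (law_pat hη hD hco hA V _ (fun q _ => Iff.rfl)).2,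
    fun X q hq s hs => facts (hC X q hq s hs), ?_, ?_⟩
  · have hT := (law_pat hη hD hco hA Finset.univ (fun q => (∀ s, ¬ q ∣ D s) ∧ ∀ s,
      FiniteAndTrivial (D s * q ^ (f s).val)) (fun q hq => by simp [hq])).2
    simp only [Finset.mem_univ, if_true] at hT
    intro δ hδ
    filter_upwards [hT.eventually (lt_mem_nhds (sub_lt_self _ hδ))] with X hX
    refine hX.le.trans (Pool.Agent.Results.MP_76188c_nt.SimultaneousTwists.ratio_mono
      fun q hq h s => ?_)
    have h2 := facts (hC X q hq s (h.1 s))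
    exact ⟨h2.1, h2.2 (h.2 s)⟩
  · rw [← Finset.prod_pow_eq_pow_sum]
    exact Finset.prod_le_prod (fun s _ => by positivity) fun s _ => shr_zero_ge (A s)

end Pool.Agent.Results.MP_76188c_nt.FieldsOfPrimeTwists
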