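import Pool.Agent.U860.AV.BK
import Pool.Agent.Results.MP_009fd8_ag.TwistsWithTwoIsogeny

/-!
# The `2`-adic regulator for the abelian varieties isogenous to products of twists of elliptic curves with a
point of order two, over infinite towers of number fields

Let `E : y² = x³ + a x² + b x` with integers `a`, `b` such that neither `b` nor `c = a² - 4 b` is a square,
and let `E_D : y² = x³ + a D x² + b D² x`.  `(a, b, D)` is called a member if `D` is squarefree and prime to
`2 b c` and if the product of the orders of the Selmer groups of the isogeny of degree two of `E_D` and of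
its dual has its smallest possible value four.  `K_∞(D)` is the field generated by the square roots of the
tower primes of `E_D` (helper80).

**Theorem.** Let `(a_i, b_i, D_i)`, `i < n`, be members and let `K` be any number field contained in all the
`K_∞(D_i)`, for instance `K = ℚ`.  Let `A` be ANY abelian variety over `K` which is isogenous over `K` to
`E_1 × … × E_n`, `E_i = E_{D_i}`, that is `A = (E_1 × … × E_n) / Γ` for a finite subgroup `Γ` stable under
the Galois group (such an `A` need not be a product of elliptic curves, and it need not have a rational point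
of order two).  Then `A(K) ⊗ ℚ_2 = 0` and every
continuous cocycle of the absolute Galois group of `K` with values in `V_2 A = T_2 A ⊗ ℚ_2` whose restriction
to the completion at every place is in the image of the Kummer map is a coboundary.

At the places `v` not above `2` one has `H¹(K_v, V_2 A) = 0`, and at the places above `2` the image of
`A(K_v) ⊗ ℚ_2` is the group of the semistable classes (Bloch–Kato, Hyodo).  So both sides of the question are
zero for `ℓ = 2`, `i = 2`, `j = 1` and `X` any smooth projective variety over `K` whose Picard variety is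
isogenous to a product of members, for instance `X = A` (the dual of `A` is again isogenous to the
product): `H²_M(X, ℚ(1))_hom = Pic⁰(X)(K) ⊗ ℚ`, `H¹(X̄, ℚ_2(1)) = V_2 Pic⁰(X)`.  These identifications are not
part of the Lean theorem.

If `(a, b, D)` is a member then so is `(a, b, D M)` for all products `M` of different tower primes of
`E_D`.  If `(a, b, 1)` is a member, then exactly the proportion `∏_{i ≥ 0} (1 - 2^{-(2i+1)}) = 0.4194...` of
the numbers `D` of a class with at least `c X / log X` elements up to `X` are members (theorem of the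
projects GD, GE of helper115 and others).  If `E` has the right neutral primes, then any finite number of
members for the same `(a, b)` have a common tower of infinite degree.  An example for both is `a = b = 7`.
-/

set_option autoImplicit false

open scoped Classical

open WeierstrassCurve NumberField

namespace Pool.Agent.Results.MP_76188c_nt.IsogenousToTwists

open Pool.Agent.TH841.SH.D (Gal)
open Pool.Agent.U860.AV (Ker Pts rat IsSelVA IsCobVA)
open Pool.Agent.Results.MP_009fd8_ag
open Pool.Agent.Results.MP_009fd8_ag.TwistsWithTwoIsogeny (curve Member TowerPrime Tower HasNeutral Class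
  mem_iff zero_of)

/-- `A(K) ⊗ ℚ_2 = 0` and `H¹_f(K, V_2 A) = 0` for the abelian variety `A = (E_1 × … × E_n) / Γ` -/
def BothZero {K : Type} [Field K] [NumberField K] {n : ℕ} {E : Fin n → WeierstrassCurve K}
    (A : Ker E) : Prop :=
  (∀ x : TensorProduct ℤ (rat A) ℚ_[2], x = 0) ∧
    ∀ c : Gal K → ℕ → Pts A, IsSelVA A 2 c → IsCobVA A 2 c

section proof

theorem all_of {n : ℕ} (a b : Fin n → ℤ) (D : Fin n → ℕ) (h : ∀ i, Member (a i) (b i) (D i))
    (K : IntermediateField ℚ ℂ) (hK : ∀ i, K ≤ Tower (a i) (b i) (D i)) [hN : NumberField K]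
    (A : Ker (fun i => curve (a i) (b i) (D i) K)) : BothZero A := by
  have : Fact (Nat.Prime 2) := ⟨Nat.prime_two⟩
  have hfin : ∀ i, Finite (curve (a i) (b i) (D i) K).toAffine.Point := by
    intro i
    obtain ⟨⟨h1, h2⟩, h3, h4⟩ := (mem_iff _ _ _).1 (h i)
    obtain ⟨m, hm, hf, hs⟩ := Pool.Agent.U860.DT.over_tower (Pool.Agent.U860.DS.b_ne h1)
      (Pool.Agent.U860.DS.c_ne h2) h3 h4 K (hK i)
    exact hf
  have hΓ := A.fin
  have hN0 : 0 < Nat.card A.Γ := Nat.card_pos
  have hAN : Pool.Agent.U860.AV.Kills A (Nat.card A.Γ) := by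
    intro g hg
    have h1 : Nat.card A.Γ • (⟨g, hg⟩ : A.Γ) = 0 := card_nsmul_eq_zero'
    have h2 := congrArg Subtype.val h1
    rw [AddSubgroup.coe_nsmul] at h2
    exact h2
  constructor
  · have hpos : 0 < (∏ i, Nat.card (curve (a i) (b i) (D i) K).toAffine.Point) * Nat.card A.Γ := by
      refine Nat.mul_pos (Finset.prod_pos fun i _ => ?_) hN0
      have := hfin i
      exact Nat.card_pos
    refine Pool.Agent.U860.AV.tensor_zero' hpos (fun x => ?_) 2
    apply Subtype.ext
    rw [AddSubgroup.coe_nsmul]
    exact Pool.Agent.U860.AV.rat_killed hAN _ hfin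
      (fun i => Finset.dvd_prod_of_mem
        (fun i => Nat.card (curve (a i) (b i) (D i) K).toAffine.Point) (Finset.mem_univ i)) x.1 x.2
  · intro c hc
    exact Pool.Agent.U860.AV.h1fA_zero hAN hN0 Nat.prime_two
      (fun i => (zero_of (a i) (b i) (D i) (h i) K (hK i)).2.2) c hc

end proof

/-- **The `2`-adic regulators of the abelian varieties isogenous to products of members.** -/
theorem result :
    (∀ (n : ℕ) (a b : Fin n → ℤ) (D : Fin n → ℕ), (∀ i, Member (a i) (b i) (D i)) →
      ∀ K : IntermediateField ℚ ℂ, (∀ i, K ≤ Tower (a i) (b i) (D i)) → FiniteDimensional ℚ K →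
        ∃ _ : NumberField K, (∀ i, (curve (a i) (b i) (D i) K).IsElliptic) ∧
          ∀ A : Ker (fun i => curve (a i) (b i) (D i) K), BothZero A) ∧
    -- twists by tower primes
    (∀ (a b : ℤ) (D : ℕ) (U : Finset ℕ), Member a b D → (∀ q ∈ U, TowerPrime a b D q) →
      Member a b (D * ∏ q ∈ U, q)) ∧
    -- the common tower of several twists
    (∀ (a b : ℤ) (n : ℕ) (D : Fin n → ℕ), (∀ i, Member a b (D i)) → 0 < n → HasNeutral a b →
      ¬ FiniteDimensional ℚ (⨅ i, Tower a b (D i) : IntermediateField ℚ ℂ)) ∧
    -- the number of the members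
    (∀ a b : ℤ, Member a b 1 →
      (∃ (c : ℝ) (X₀ : ℕ), 0 < c ∧ ∀ X : ℕ, X₀ ≤ X →
        c * X / Real.log X ≤ (((Finset.Icc 1 X).filter fun D => Class a b D).card : ℝ)) ∧
      Filter.Tendsto (fun X : ℕ =>
        (((Finset.Icc 1 X).filter fun D => Class a b D ∧ Member a b D).card : ℝ) /
          (((Finset.Icc 1 X).filter fun D => Class a b D).card : ℝ)) Filter.atTop
        (nhds (∏' i : ℕ, (1 - (1 / 2 : ℝ) ^ (2 * i + 1))))) ∧
    0.4194 < ∏' i : ℕ, (1 - (1 / 2 : ℝ) ^ (2 * i + 1)) ∧
    ∏' i : ℕ, (1 - (1 / 2 : ℝ) ^ (2 * i + 1)) < 0.4195 ∧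
    Member 7 7 1 ∧ HasNeutral 7 7 := by
  obtain ⟨-, r2, -, r4, r5, r6, r7, r8⟩ := TwistsWithTwoIsogeny.result
  refine ⟨fun n a b D h K hK hfd => ?_, r2, fun a b n D h hn hneu => ?_, r4, r5, r6, r7, r8⟩
  · have hN : NumberField K := { to_charZero := inferInstance, to_finiteDimensional := hfd }
    exact ⟨hN, fun i => (zero_of (a i) (b i) (D i) (h i) K (hK i)).1, fun A => all_of a b D h K hK A⟩
  · obtain ⟨⟨nb, nc⟩, -, -⟩ := h ⟨0, hn⟩
    exact Pool.Agent.U860.DT.common (Pool.Agent.U860.DS.b_ne nb) (Pool.Agent.U860.DS.c_ne nc)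
      hneu D fun i => ((mem_iff _ _ _).1 (h i)).2.1

end Pool.Agent.Results.MP_76188c_nt.IsogenousToTwists
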