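import Pool.Agent.Results.MP_76188c_nt.CubicTwistRegulators
import Pool.Agent.U150.RG.It

/-!
# The `3`-adic regulator for the successive prime twists of EVERY `E_D`: a Markov chain and a universal limit

`K` is the field of third roots of unity, `E_D : y² + D y = x³`, and `H¹_f(K, V_3 E_D)` is the group of the
classes in `H¹(K, V_3 E_D)` that are in the image of the Kummer map at all places; this is the group
`H¹_st(G_K, V_3 E_D)` of the problem for `X = E_D`, `i = 2`, `j = 1`, `ℓ = 3` (see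
`CubicTwistRegulators.lean`, whose definitions we use and where the `D` are ordered by the norm).

Here we start with an ARBITRARY `D = ∏ π_k ^ e_k` with `n` different primes `π_k = 1` modulo `3`,
`e_k = 1, 2`, about whose curve nothing is assumed, and twist it successively by prime elements
`q_k, …, q_1, q_0 = 1` modulo `3`, which vary in this order.  The lower density of a property of
`D' = D q_k^{f_k} ⋯ q_0^{f_0}` is the iterated one:

`liminf_{X_k → ∞} mean_{q_k} ⋯ liminf_{X_0 → ∞} mean_{q_0} [property of D']`,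

the mean over the primes `q_i` with `N(q_i) ≤ X_i`, `N(q_i) = 1 + 3 a_i` modulo `9` (those that divide the
previous element are left out), where `f_i = 1, 2` and the `a_i` are arbitrary numbers such that `N(D')` is
not `1` modulo `9`; the iterated upper mean of a number attached to `D'` is defined in the same way.  Let `A`
be the symmetric matrix `(e_j χ_{jk} e_k)` over the field with three elements, `(π_k / π_j)_3 = η ^ χ_{jk}`,
let `P_0(r)` be the share of the diagonal matrices `Y` for which `A + Y` has corank `r`, and let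
`P_k = (P_k(r))_r` be the law at the time `k` of the Markov chain with the transition probabilities
`r → r - 1`: `1 - 3^{-r}`, `r → r`: `2 · 3^{-(r+1)}`, `r → r + 1`: `3^{-(r+1)}`, started with `P_0`.

* For a lower density of at least `P_k(0)` of the `D'` both sides of the regulator
  `E_{D'}(K) ⊗ ℚ_3 → H¹_f(K, V_3 E_{D'})` are zero; and `P_k(0) ≥ (2/3)^{n + k} > 0` for every `D` and `k`.
* For a lower density of at least `P_k(0) + P_k(1)` of the `D'` the dimension of `H¹_f` is at most two, and if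
  `E_{D'}(K)` is infinite, then its rank is `2`, the `3`-primary part of `Ш(E_{D'}/K)` is trivial and the
  regulator is an isomorphism.
* For a lower density of at least `P_k(0) + ⋯ + P_k(d)` of the `D'` the rank of `E_{D'}(K)` and the dimension of
  `H¹_f` are at most `2 d`.
* The iterated upper means of the rank of `E_{D'}(K)` and of the dimension of `H¹_f(K, V_3 E_{D'})` are at most
  `2 ∑ r P_k(r)`.
* `P_k(0) + ⋯ + P_k(d)` is at least `prob 0 + ⋯ + prob d - 3 (2^n + 1) (2/3)^k`, where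
  `prob r = ∏_{i ≥ 0} (1 - 3^{-(2 i + 1)}) / ((3 - 1) (9 - 1) ⋯ (3 ^ r - 1))`, and the upper means are at most
  `0.8084 + 6 (2^n + 1) (2/3)^k`.
* So for EVERY `D` of the class of the named file, whatever its regulator, its rank and its
  Tate-Shafarevich group are, after sufficiently many steps: for `63.9 %` of the `D'` both sides are zero;
  for `95.85 %` the dimension of `H¹_f` is at most two and the regulator is an isomorphism if `E_{D'}(K)` is
  infinite; for `99.8 %` the rank and the dimension of `H¹_f` are at most four; and the upper means of the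
  rank and of the dimension of `H¹_f` are at most `0.81`.

Proof.  The facts for one `D'` are those of the named file (helper419 and others).  By cubic reciprocity and
the theorem of Chebotarev (library) a variable prime adds a random row and column to `A`, and the coranks
form a Markov chain, which converges exponentially fast: this is `Pool.Agent.U687.MC` (helper687).  The
properties above are not determined by the Selmer rank, so the limits of the means need not exist: one
has to compare iterated lower and upper limits.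
-/

set_option autoImplicit false

namespace Pool.Agent.Results.MP_76188c_nt.PrimeTwistRegulators

open NumberField WeierstrassCurve Filter Topology Matrix
open Pool.Agent.Results.MP_76188c_nt.CubicTwistRegulators
open scoped Classical ENNReal

variable {K : Type} [Field K] [NumberField K]

/-- The prime elements that are `1` modulo `3`, of norm at most `X` and `1 + 3 a` modulo `9`. -/
def Primes (K : Type) [Field K] [NumberField K] (a : ZMod 3) (X : ℕ) : Set (𝓞 K) :=
  {q : 𝓞 K | Prime q ∧ (3 : 𝓞 K) ∣ q - 1 ∧ Algebra.norm ℤ q ≤ X ∧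
    Algebra.norm ℤ q % 9 = 1 + 3 * (a.val : ℤ)}

/-- The mean of `T q` over the primes `q` of `Primes K a X`; the terms of the finitely many `q` that
divide `D` are left out. -/
noncomputable def average (a : ZMod 3) (D : 𝓞 K) (T : 𝓞 K → ℝ≥0∞) (X : ℕ) : ℝ≥0∞ :=
  (∑ᶠ q ∈ {q : 𝓞 K | q ∈ Primes K a X ∧ ¬ q ∣ D}, T q) / ((Primes K a X).ncard : ℝ≥0∞)

/-- The iterated lower limits of the means of `T` over the `k`-fold prime twists of `D`. -/
noncomputable def lowerMean (a f : ℕ → ZMod 3) (T : 𝓞 K → ℝ≥0∞) : ℕ → 𝓞 K → ℝ≥0∞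
  | 0, D => T D
  | k + 1, D => liminf (average (a k) D (fun q => lowerMean a f T k (D * q ^ (f k).val))) atTop

/-- The iterated upper limits of the means of `T` over the `k`-fold prime twists of `D`. -/
noncomputable def upperMean (a f : ℕ → ZMod 3) (T : 𝓞 K → ℝ≥0∞) : ℕ → 𝓞 K → ℝ≥0∞
  | 0, D => T D
  | k + 1, D => limsup (average (a k) D (fun q => upperMean a f T k (D * q ^ (f k).val))) atTop

/-- `1` for the `D` with the property `P`, and `0` for the others. -/
noncomputable def indicator (P : K → Prop) (D : 𝓞 K) : ℝ≥0∞ := if P (D : K) then 1 else 0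

/-- The iterated lower density of the property `P` among the `k`-fold prime twists of `D`. -/
noncomputable def lowerDensity (a f : ℕ → ZMod 3) (P : K → Prop) (k : ℕ) (D : 𝓞 K) : ℝ≥0∞ :=
  lowerMean a f (indicator P) k D

/-- The rank of `E_D(K)`. -/
noncomputable def rankOf (D : 𝓞 K) : ℝ≥0∞ := (rank (D : K) : ℝ≥0∞)

/-- The least `d` such that `dim H¹_f(K, V_3 E_D) ≤ d`. -/
noncomputable def dimension (D : 𝓞 K) : ℝ≥0∞ := ⨅ d ∈ {d : ℕ | DimAtMost (curve (D : K)) d}, (d : ℝ≥0∞)

/-- The matrix of the cubic residue symbols, weighted by the exponents. -/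
def symbols {n : ℕ} (e : Fin n → ZMod 3) (χ : Fin n → Fin n → ZMod 3) :
    Matrix (Fin n) (Fin n) (ZMod 3) :=
  Matrix.of fun j k => e j * χ j k * e k

/-- The share of the diagonal matrices `Y` for which the rank of `A + Y` is `n - r`. -/
noncomputable def share {n : ℕ} (A : Matrix (Fin n) (Fin n) (ZMod 3)) (r : ℕ) : ℝ :=
  (Nat.card {y : Fin n → ZMod 3 // (A + diagonal y).rank + r = n} : ℝ) / 3 ^ n

/-- One step of the Markov chain. -/
noncomputable def markov (μ : ℕ → ℝ) (r : ℕ) : ℝ :=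
  (1 - (1 / 3) ^ (r + 1)) * μ (r + 1) + 2 * (1 / 3) ^ (r + 1) * μ r +
    (if r = 0 then 0 else (1 / 3) ^ r * μ (r - 1))

/-- The law of the Markov chain at the time `k`. -/
noncomputable def chain {n : ℕ} (A : Matrix (Fin n) (Fin n) (ZMod 3)) : ℕ → ℕ → ℝ
  | 0 => share A
  | k + 1 => markov (chain A k)

/-- `D` is the product of the powers `π i ^ e i`, `e i = 1, 2`, of the prime elements `π i`, which
are different and `1` modulo `3`, and `(π i / π j)_3 = η ^ χ j i`. -/
def IsFact (η D : 𝓞 K) (n : ℕ) (π : Fin n → 𝓞 K) (e : Fin n → ZMod 3)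
    (χ : Fin n → Fin n → ZMod 3) : Prop :=
  (∀ i, Prime (π i) ∧ (3 : 𝓞 K) ∣ π i - 1 ∧ e i ≠ 0) ∧ D = ∏ i, π i ^ (e i).val ∧
  ∀ i j, i ≠ j → ¬ π j ∣ π i ∧
    π j ∣ π i ^ (((Algebra.norm ℤ (π j)).natAbs - 1) / 3) - η ^ (χ j i).val

/-- The norm of `D q_k^{f_k} ⋯ q_0^{f_0}` is not `1` modulo `9` if `N(q_i) = 1 + 3 a_i` modulo `9`. -/
def NotExceptional (a f : ℕ → ZMod 3) (k : ℕ) (D : 𝓞 K) : Prop :=
  ¬ (9 : ℤ) ∣ Algebra.norm ℤ D * ∏ i ∈ Finset.range (k + 1),
    (1 + 3 * ((a i).val : ℤ)) ^ (f i).val - 1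

/-- The rank of `E_D(K)` and the dimension of `H¹_f(K, V_3 E_D)` are at most `d`. -/
def Small (d : ℕ) (D : K) : Prop := rank D ≤ d ∧ DimAtMost (curve D) d

/-- The dimension of `H¹_f` is at most two, and if `E_D(K)` is infinite, then its rank is `2`, the
3-primary part of `Ш(E_D/K)` is trivial and the regulator is an isomorphism. -/
def Expected (D : K) : Prop := DimAtMost (curve D) 2 ∧ IsoIfInfinite D

section proof

open Pool.Agent.U687.KT Pool.Agent.U150.RG
open Pool.Agent.U687.MC hiding prob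
open Pool.Agent.Y692.QS (Ei w nr)

theorem lower_eq (a f : ℕ → ZMod 3) (T : 𝓞 K → ℝ≥0∞) (k : ℕ) :
    ∀ D : 𝓞 K, lowerMean a f T k D = lo a f T k D := by
  induction k with
  | zero =>
    intro D
    rfl
  | succ k ih =>
    intro D
    show liminf (average (a k) D (fun q => lowerMean a f T k (D * q ^ (f k).val))) atTop =
      liminf (mE (PR K (a k)) (SR (a k) D) (fun q => lo a f T k (D * q ^ (f k).val))) atTop
    have h : (fun q => lowerMean a f T k (D * q ^ (f k).val)) =
        fun q => lo a f T k (D * q ^ (f k).val) := funext fun q => ih _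
    rw [h]
    rfl

theorem upper_eq (a f : ℕ → ZMod 3) (T : 𝓞 K → ℝ≥0∞) (k : ℕ) :
    ∀ D : 𝓞 K, upperMean a f T k D = up a f T k D := by
  induction k with
  | zero =>
    intro D
    rfl
  | succ k ih =>
    intro D
    show limsup (average (a k) D (fun q => upperMean a f T k (D * q ^ (f k).val))) atTop =
      limsup (mE (PR K (a k)) (SR (a k) D) (fun q => up a f T k (D * q ^ (f k).val))) atTop
    have h : (fun q => upperMean a f T k (D * q ^ (f k).val)) =
        fun q => up a f T k (D * q ^ (f k).val) := funext fun q => ih _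
    rw [h]
    rfl

theorem chain_eq {n : ℕ} {A : Matrix (Fin n) (Fin n) (ZMod 3)} (hA : A.IsSymm) (k : ℕ) :
    chain A k = dd k A := by
  induction k with
  | zero =>
    funext r
    exact (dd_zero A r).symm
  | succ k ih =>
    funext r
    rw [dd_succ k hA r, ← ih]
    rfl

/-- the facts for one element of Selmer rank `r` -/
def Facts (r : ℕ) (D : K) : Prop :=
  rank D ≤ 2 * r ∧ DimAtMost (curve D) (2 * r) ∧ (r = 0 → BothZero D) ∧ (r ≤ 1 → IsoIfInfinite D)

theorem dim_mono {D : K} {d e : ℕ} (h : DimAtMost (curve D) d) (hde : d ≤ e) :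
    DimAtMost (curve D) e :=
  fun N x h1 h2 => (h N x h1 h2).trans (Nat.pow_le_pow_right (by norm_num) hde)

theorem one_fact [IsCyclotomicExtension {3} ℚ K] (j : Ei ≃+* 𝓞 K)
    (hj : ∀ z : Ei, Algebra.norm ℤ (j z) = nr z) (hη : j w ^ 2 + j w + 1 = 0) {D : 𝓞 K} {n : ℕ}
    {π : Fin n → 𝓞 K} {e : Fin n → ZMod 3} {χ : Fin n → Fin n → ZMod 3}
    (hR : RF (j w) D n π e χ) (h9 : ¬ (9 : ℤ) ∣ Algebra.norm ℤ D - 1) {r : ℕ}
    (hr : sol e χ = 3 ^ (r + 1)) : Facts r (D : K) := by
  obtain ⟨c1, c2⟩ := rf_class j hj hR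
  have hC : InClass D := ⟨c1, c2, h9⟩
  have h1 : (SelRoot (D : K)).ncard = 3 ^ (r + 1) := by
    have h2 : (SelRoot (D : K)).ncard = sol e χ := (Pool.Agent.R419.KL.oneK hC).2 (j w) n π e χ hη hR
    rw [h2, hr]
  obtain ⟨r', b1, b2, b3, b4, b5, b6⟩ := Pool.Agent.R419.MX.one hC
  have b1' : (SelRoot (D : K)).ncard = 3 ^ (r' + 1) := b1
  have b7 : r' = r := by
    rw [b1'] at h1
    have := Nat.pow_right_injective (by norm_num : 2 ≤ 3) h1
    omega
  subst b7
  refine ⟨b3, b4, fun h0 => ?_, fun h => (b6 h).imp id fun h => ⟨h.1, h.2.1,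
    ⟨h.2.2.1, h.2.2.2.1, h.2.2.2.2.1⟩, h.2.2.2.2.2⟩⟩
  refine Pool.Agent.R419.MX.zero_case hC ?_
  have : (SelRoot (D : K)).ncard ≤ 3 ^ 1 := by
    rw [b1', h0]
  exact this

section one
variable [IsCyclotomicExtension {3} ℚ K] {η : 𝓞 K} (hη : η ^ 2 + η + 1 = 0) {a f : ℕ → ZMod 3}
  (hf : ∀ i, f i ≠ 0) {D : 𝓞 K} {n : ℕ} {π : Fin n → 𝓞 K} {e : Fin n → ZMod 3}
  {χ : Fin n → Fin n → ZMod 3} (h : IsFact η D n π e χ) {k : ℕ} (hk : NotExceptional a f k D)
include hη h

theorem symm_symbols : (SM e χ).IsSymm := by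
  obtain ⟨⟨j, hj⟩, -⟩ := Pool.Agent.Y455.CTK.jex K
  obtain ⟨j, hj, rfl⟩ := exists_j j hj hη
  exact SM_symm (rf_symm j hj h)

include hf hk

theorem density_ge (P : K → Prop) (d : ℕ)
    (hP : ∀ D : 𝓞 K, ∀ r, r < d → Facts r (D : K) → P (D : K)) :
    ENNReal.ofReal (∑ s ∈ Finset.range d, dd k (SM e χ) s) ≤ lowerDensity a f P (k + 1) D := by
  obtain ⟨⟨j, hj⟩, -⟩ := Pool.Agent.Y455.CTK.jex K
  obtain ⟨j, hj, rfl⟩ := exists_j j hj hη
  have h1 := lo_main j hj a f hf (indicator P) (fun r => ∑ s ∈ Finset.range d, pt s r) (by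
    intro r
    rw [set_val]
    split_ifs <;> norm_num) (by
    intro D n π e χ hR h9 r hr
    have h2 := one_fact j hj hη hR h9 hr
    unfold indicator
    rw [set_val]
    by_cases h3 : r < d
    · rw [if_pos h3, if_pos (hP D r h3 h2), ENNReal.ofReal_one]
    · rw [if_neg h3, ENNReal.ofReal_zero]
      exact zero_le) k D n π e χ h hk
  rw [EE_set] at h1
  unfold lowerDensity
  rw [lower_eq]
  exact h1

theorem mean_up (T : 𝓞 K → ℝ≥0∞)
    (hT : ∀ D : 𝓞 K, ∀ r, Facts r (D : K) → T D ≤ ((2 * r : ℕ) : ℝ≥0∞)) :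
    upperMean a f T (k + 1) D ≤
      ENNReal.ofReal (2 * ∑ s ∈ Finset.range (n + k + 1), (s : ℝ) * dd k (SM e χ) s) := by
  obtain ⟨⟨j, hj⟩, -⟩ := Pool.Agent.Y455.CTK.jex K
  obtain ⟨j, hj, rfl⟩ := exists_j j hj hη
  have h1 := up_main j hj a f hf T (fun r => 2 * (r : ℝ)) (by
    intro r
    positivity) (by
    intro D n π e χ hR h9 r hr
    have h2 := one_fact j hj hη hR h9 hr
    refine (hT D r h2).trans (le_of_eq ?_)
    rw [← ENNReal.ofReal_natCast]
    push_cast
    rfl) k D n π e χ h hk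
  rw [EE_fun] at h1
  rw [upper_eq]
  refine h1.trans (le_of_eq ?_)
  congr 1
  rw [Finset.mul_sum]
  exact Finset.sum_congr rfl fun s _ => by ring

end one

end proof

/-- The numbers for the `k`-fold twists of `D`: both sides of the regulator are zero for `63.9 %`; the
dimension is at most two and the regulator is an isomorphism if there are infinitely many points for
`95.85 %`; the rank and the dimension are at most four for `99.8 %`; the means are at most `0.81`. -/
def Numbers (a f : ℕ → ZMod 3) (k : ℕ) (D : 𝓞 K) : Prop :=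
  ENNReal.ofReal 0.639 ≤ lowerDensity a f BothZero k D ∧
  ENNReal.ofReal 0.9585 ≤ lowerDensity a f Expected k D ∧
  ENNReal.ofReal 0.998 ≤ lowerDensity a f (Small 4) k D ∧
  upperMean a f rankOf k D ≤ ENNReal.ofReal 0.81 ∧
  upperMean a f dimension k D ≤ ENNReal.ofReal 0.81

open Pool.Agent.U687.KT Pool.Agent.U150.RG in
open Pool.Agent.U687.MC hiding prob in
/-- **The regulators of the successive prime twists of every `E_D`.** -/
theorem result (K : Type) [Field K] [NumberField K] [IsCyclotomicExtension {3} ℚ K] :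
    (∀ (η : 𝓞 K) (a f : ℕ → ZMod 3) (D : 𝓞 K) (n : ℕ) (π : Fin n → 𝓞 K) (e : Fin n → ZMod 3)
      (χ : Fin n → Fin n → ZMod 3) (k : ℕ), η ^ 2 + η + 1 = 0 → (∀ i, f i ≠ 0) →
      IsFact η D n π e χ → NotExceptional a f k D →
      ENNReal.ofReal (chain (symbols e χ) k 0) ≤ lowerDensity a f BothZero (k + 1) D ∧
      ENNReal.ofReal (chain (symbols e χ) k 0 + chain (symbols e χ) k 1) ≤
        lowerDensity a f Expected (k + 1) D ∧
      (∀ d : ℕ, ENNReal.ofReal (∑ r ∈ Finset.range (d + 1), chain (symbols e χ) k r) ≤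
        lowerDensity a f (Small (2 * d)) (k + 1) D) ∧
      upperMean a f rankOf (k + 1) D ≤ ENNReal.ofReal
        (2 * ∑ r ∈ Finset.range (n + k + 1), (r : ℝ) * chain (symbols e χ) k r) ∧
      upperMean a f dimension (k + 1) D ≤ ENNReal.ofReal
        (2 * ∑ r ∈ Finset.range (n + k + 1), (r : ℝ) * chain (symbols e χ) k r) ∧
      (2 / 3) ^ (n + k) ≤ chain (symbols e χ) k 0 ∧
      (∀ d : ℕ, ∑ r ∈ Finset.range d, prob r - 3 * (2 ^ n + 1) * (2 / 3) ^ k ≤
        ∑ r ∈ Finset.range d, chain (symbols e χ) k r) ∧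
      2 * ∑ r ∈ Finset.range (n + k + 1), (r : ℝ) * chain (symbols e χ) k r ≤
        0.8084 + 6 * (2 ^ n + 1) * (2 / 3) ^ k) ∧
    (∀ n : ℕ, ∃ k₀ : ℕ, ∀ k, k₀ ≤ k → ∀ (η : 𝓞 K) (a f : ℕ → ZMod 3) (D : 𝓞 K)
      (π : Fin n → 𝓞 K) (e : Fin n → ZMod 3) (χ : Fin n → Fin n → ZMod 3),
      η ^ 2 + η + 1 = 0 → (∀ i, f i ≠ 0) → IsFact η D n π e χ → NotExceptional a f k D →
      Numbers a f (k + 1) D) ∧
    ∀ D : 𝓞 K, InClass D → ∃ k₀ : ℕ, ∀ k, k₀ ≤ k → ∀ f : ℕ → ZMod 3, (∀ i, f i ≠ 0) →
      Numbers (fun _ => 0) f k D := by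
  have part1 : ∀ (η : 𝓞 K) (a f : ℕ → ZMod 3) (D : 𝓞 K) (n : ℕ) (π : Fin n → 𝓞 K)
      (e : Fin n → ZMod 3) (χ : Fin n → Fin n → ZMod 3) (k : ℕ), η ^ 2 + η + 1 = 0 →
      (∀ i, f i ≠ 0) → IsFact η D n π e χ → NotExceptional a f k D →
      ENNReal.ofReal (chain (symbols e χ) k 0) ≤ lowerDensity a f BothZero (k + 1) D ∧
      ENNReal.ofReal (chain (symbols e χ) k 0 + chain (symbols e χ) k 1) ≤
        lowerDensity a f Expected (k + 1) D ∧
      (∀ d : ℕ, ENNReal.ofReal (∑ r ∈ Finset.range (d + 1), chain (symbols e χ) k r) ≤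
        lowerDensity a f (Small (2 * d)) (k + 1) D) ∧
      upperMean a f rankOf (k + 1) D ≤ ENNReal.ofReal
        (2 * ∑ r ∈ Finset.range (n + k + 1), (r : ℝ) * chain (symbols e χ) k r) ∧
      upperMean a f dimension (k + 1) D ≤ ENNReal.ofReal
        (2 * ∑ r ∈ Finset.range (n + k + 1), (r : ℝ) * chain (symbols e χ) k r) ∧
      (2 / 3) ^ (n + k) ≤ chain (symbols e χ) k 0 ∧
      (∀ d : ℕ, ∑ r ∈ Finset.range d, CubicTwistRegulators.prob r -
          3 * (2 ^ n + 1) * (2 / 3) ^ k ≤ ∑ r ∈ Finset.range d, chain (symbols e χ) k r) ∧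
      2 * ∑ r ∈ Finset.range (n + k + 1), (r : ℝ) * chain (symbols e χ) k r ≤
        0.8084 + 6 * (2 ^ n + 1) * (2 / 3) ^ k := by
    intro η a f D n π e χ k hη hf h hk
    have hS := symm_symbols hη h
    have hC : chain (symbols e χ) k = dd k (SM e χ) := chain_eq hS k
    rw [hC]
    refine ⟨?_, ?_, fun d => ?_, ?_, ?_, chain_ge k _, fun d => dd_lower k hS d, ?_⟩
    · have h1 := density_ge hη hf h hk BothZero 1 (fun D r hr hF => hF.2.2.1 (by omega))
      rwa [Finset.sum_range_one] at h1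
    · have h1 := density_ge hη hf h hk Expected 2 (fun D r hr hF =>
        ⟨dim_mono hF.2.1 (by omega), hF.2.2.2 (by omega)⟩)
      rwa [Finset.sum_range_succ, Finset.sum_range_one] at h1
    · exact density_ge hη hf h hk (Small (2 * d)) (d + 1) (fun D r hr hF =>
        ⟨hF.1.trans (by omega), dim_mono hF.2.1 (by omega)⟩)
    · refine mean_up hη hf h hk rankOf fun D r hF => ?_
      unfold rankOf
      exact_mod_cast hF.1
    · refine mean_up hη hf h hk dimension fun D r hF => ?_
      exact iInf₂_le (2 * r) hF.2.1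
    · have := dd_mean k hS (n + k + 1)
      norm_num at this ⊢
      linarith
  have part2 : ∀ n : ℕ, ∃ k₀ : ℕ, ∀ k, k₀ ≤ k → ∀ (η : 𝓞 K) (a f : ℕ → ZMod 3) (D : 𝓞 K)
      (π : Fin n → 𝓞 K) (e : Fin n → ZMod 3) (χ : Fin n → Fin n → ZMod 3),
      η ^ 2 + η + 1 = 0 → (∀ i, f i ≠ 0) → IsFact η D n π e χ → NotExceptional a f k D →
      Numbers a f (k + 1) D := by
    intro n
    obtain ⟨k₀, hk₀⟩ := numbers n
    refine ⟨k₀, fun k hk η a f D π e χ hη hf h hN => ?_⟩
    obtain ⟨b1, b2, b3, b4, b5, -, -, -⟩ := part1 η a f D n π e χ k hη hf h hN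
    have hS := symm_symbols hη h
    have hC : chain (symbols e χ) k = dd k (SM e χ) := chain_eq hS k
    obtain ⟨c1, c2, c3, c4⟩ := hk₀ k hk (SM e χ) hS
    rw [hC] at b1 b2 b3 b4 b5
    have b3' := b3 2
    simp only [Finset.sum_range_succ, Finset.sum_range_zero, zero_add] at b3'
    have c5 := c4 (n + k + 1)
    have c6 : 2 * ∑ r ∈ Finset.range (n + k + 1), (r : ℝ) * dd k (SM e χ) r ≤ 0.81 := by
      norm_num at c5 ⊢
      linarith
    exact ⟨le_trans (ENNReal.ofReal_le_ofReal c1) b1, le_trans (ENNReal.ofReal_le_ofReal c2) b2,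
      le_trans (ENNReal.ofReal_le_ofReal c3) b3', b4.trans (ENNReal.ofReal_le_ofReal c6),
      b5.trans (ENNReal.ofReal_le_ofReal c6)⟩
  refine ⟨part1, part2, fun D hD => ?_⟩
  obtain ⟨η, n, π, e, χ, hη, hfact⟩ := ((Pool.Agent.R419.KF.final K).2.1 D hD).1.1
  obtain ⟨k₀, hk₀⟩ := part2 n
  refine ⟨k₀ + 1, fun k hk f hf => ?_⟩
  obtain ⟨k, rfl⟩ : ∃ k', k = k' + 1 := ⟨k - 1, by omega⟩
  refine hk₀ k (by omega) η (fun _ => 0) f D π e χ hη hf hfact ?_
  unfold NotExceptional
  have : ∏ i ∈ Finset.range (k + 1), (1 + 3 * (((0 : ZMod 3)).val : ℤ)) ^ (f i).val = 1 := by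
    refine Finset.prod_eq_one fun i _ => ?_
    rw [ZMod.val_zero]
    simp
  rw [this, mul_one]
  exact hD.2.2

end Pool.Agent.Results.MP_76188c_nt.PrimeTwistRegulators
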